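import Pool.Agent.Lib.MP_1f0905_gt.Top

/-!
The middle thirds Cantor set and affine maps onto its gaps.
-/

open Set Filter Topology

namespace Pool.Agent.Lib.MP_1f0905_gt.Mf

/-- Left end point of the interval of level `n` that belongs to `x`. -/
noncomputable def lft (x : ℕ → Bool) (n : ℕ) : ℝ :=
  ∑ i ∈ Finset.range n, if x i then 2 * (1 / 3) ^ (i + 1) else 0

theorem lft_succ (x : ℕ → Bool) (n : ℕ) :
    lft x (n + 1) = lft x n + if x n then 2 * (1 / 3) ^ (n + 1) else 0 :=
  Finset.sum_range_succ _ _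

theorem lft_congr {x y : ℕ → Bool} {n : ℕ} (h : ∀ i < n, x i = y i) : lft x n = lft y n :=
  Finset.sum_congr rfl fun i hi => by rw [h i (Finset.mem_range.1 hi)]

/-- The closed interval of level `n`. -/
def InK (x : ℕ → Bool) (n : ℕ) (y : ℝ) : Prop := lft x n ≤ y ∧ y ≤ lft x n + (1 / 3) ^ n

/-- Its open middle third. -/
def InG (x : ℕ → Bool) (n : ℕ) (y : ℝ) : Prop :=
  lft x n + (1 / 3) ^ (n + 1) < y ∧ y < lft x n + 2 * (1 / 3) ^ (n + 1)

variable {x x' : ℕ → Bool} {n m : ℕ} {y : ℝ}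

theorem InK.succ (h : InK x (n + 1) y) : InK x n y := by
  have h0 : (0 : ℝ) < (1 / 3) ^ n := by positivity
  obtain ⟨h1, h2⟩ := h
  rw [lft_succ, pow_succ] at h1 h2
  constructor <;> split_ifs at h1 h2 <;> linarith

theorem InK.mono (hnm : n ≤ m) (h : InK x m y) : InK x n y := by
  induction hnm with
  | refl => exact h
  | step _ ih => exact ih h.succ

theorem InG.inK (h : InG x n y) : InK x n y := by
  have h0 : (0 : ℝ) < (1 / 3) ^ n := by positivity
  obtain ⟨h1, h2⟩ := h
  rw [pow_succ] at h1 h2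
  constructor <;> linarith

theorem InK.agree (h : InK x n y) (h' : InK x' n y) : ∀ i < n, x i = x' i := by
  induction n with
  | zero => intro i hi; omega
  | succ n ih =>
    have h1 := ih h.succ h'.succ
    intro i hi
    rcases Nat.lt_succ_iff_lt_or_eq.1 hi with hi | rfl
    · exact h1 i hi
    · have h0 : (0 : ℝ) < (1 / 3) ^ (i + 1) := by positivity
      obtain ⟨a1, a2⟩ := h
      obtain ⟨b1, b2⟩ := h'
      rw [lft_succ] at a1 a2 b1 b2
      rw [lft_congr h1] at a1 a2
      by_contra hne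
      cases hx : x i <;> cases hx' : x' i <;>
        simp only [hx, hx', if_true, Bool.false_eq_true, if_false, not_true] at a1 a2 b1 b2 hne <;>
        linarith

theorem InK.not_inG (h : InK x' (n + 1) y) : ¬ InG x n y := by
  intro hg
  have e := lft_congr (h.succ.agree hg.inK)
  obtain ⟨h1, h2⟩ := h
  obtain ⟨h3, h4⟩ := hg
  rw [lft_succ, e] at h1 h2
  split_ifs at h1 h2 <;> linarith

theorem InG.idx (h : InG x n y) (h' : InG x' m y) : n = m ∧ ∀ i < n, x i = x' i := by
  obtain rfl : n = m := le_antisymm (not_lt.1 fun hl => (h.inK.mono hl).not_inG h')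
    (not_lt.1 fun hl => (h'.inK.mono hl).not_inG h)
  exact ⟨rfl, h.inK.agree h'.inK⟩

theorem inK_lft (hnm : n ≤ m) : InK x n (lft x m) :=
  InK.mono hnm ⟨le_rfl, le_add_of_nonneg_right (by positivity)⟩

/-- The point of the Cantor set with the digits `x`. -/
noncomputable def kap (x : ℕ → Bool) : ℝ := ⨆ n, lft x n

theorem inK_kap (x : ℕ → Bool) (n : ℕ) : InK x n (kap x) := by
  refine ⟨le_ciSup (f := lft x) ⟨lft x 0 + (1 / 3) ^ 0, ?_⟩ n, ciSup_le fun m => ?_⟩
  · rintro _ ⟨m, rfl⟩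
    exact (inK_lft (Nat.zero_le m)).2
  · rcases le_total n m with h | h
    · exact (inK_lft h).2
    · exact (inK_lft h).1.trans (le_add_of_nonneg_right (by positivity))

theorem kap_injective : Function.Injective kap := fun x x' h =>
  funext fun i => (inK_kap x (i + 1)).agree (h ▸ inK_kap x' (i + 1)) i (Nat.lt_succ_self i)

theorem InK.dist_le {y' : ℝ} (h : InK x n y) (h' : InK x n y') : dist y y' ≤ (1 / 3) ^ n := by
  rw [Real.dist_eq, abs_le]
  constructor <;> linarith [h.1, h.2, h'.1, h'.2]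

theorem inK_kap_of_agree (h : ∀ i < n, x' i = x i) : InK x n (kap x') := by
  have := inK_kap x' n
  rwa [InK, lft_congr h] at this

theorem continuous_kap : Continuous kap := by
  refine continuous_iff_continuousAt.2 fun x => Metric.tendsto_nhds.2 fun ε hε => ?_
  obtain ⟨N, hN⟩ := exists_pow_lt_of_lt_one hε (show (1 / 3 : ℝ) < 1 by norm_num)
  filter_upwards [(Dat.isOpen_cyl x N).mem_nhds fun _ _ => rfl] with x' hx'
  exact ((inK_kap_of_agree hx').dist_le (inK_kap x N)).trans_lt hN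

theorem InK.abs_lt (h : InK x n y) : |y| < 2 := by
  have := h.mono (Nat.zero_le n)
  simp only [InK, lft, Finset.range_zero, Finset.sum_empty, pow_zero] at this
  rw [_root_.abs_lt]
  constructor <;> linarith [this.1, this.2]

/-- The affine map onto a gap. -/
noncomputable def sg (n : ℕ) (s : ℕ → Bool) (v : ℝ) : ℝ := lft s n + (6 + v) / 4 * (1 / 3) ^ (n + 1)

/-- Its inverse. -/
noncomputable def sgi (n : ℕ) (s : ℕ → Bool) (e : ℝ) : ℝ := 4 * 3 ^ (n + 1) * (e - lft s n) - 6

theorem sgi_sg (n : ℕ) (s : ℕ → Bool) (v : ℝ) : sgi n s (sg n s v) = v := by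
  simp only [sg, sgi, one_div, inv_pow]
  field_simp
  ring

theorem sg_sgi (n : ℕ) (s : ℕ → Bool) (e : ℝ) : sg n s (sgi n s e) = e := by
  simp only [sg, sgi, one_div, inv_pow]
  field_simp
  ring

theorem continuous_sg (n : ℕ) (s : ℕ → Bool) : Continuous (sg n s) := by
  unfold sg
  fun_prop

theorem continuous_sgi (n : ℕ) (s : ℕ → Bool) : Continuous (sgi n s) := by
  unfold sgi
  fun_prop

theorem inG_sg (n : ℕ) (s : ℕ → Bool) {v : ℝ} (h : |v| < 2) : InG s n (sg n s v) := by
  obtain ⟨h1, h2⟩ := abs_lt.1 h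
  have h0 : (0 : ℝ) < (1 / 3) ^ (n + 1) := by positivity
  constructor <;> simp only [sg] <;> nlinarith

theorem sg_ne_kap (n : ℕ) (s : ℕ → Bool) {v : ℝ} (h : |v| < 2) (x : ℕ → Bool) :
    sg n s v ≠ kap x := fun e => (inK_kap x (n + 1)).not_inG (e ▸ inG_sg n s h)

theorem sg_idx {s s' : ℕ → Bool} (hs : s ∈ T n) (hs' : s' ∈ T m) {v w : ℝ} (hv : |v| < 2)
    (hw : |w| < 2) (h : sg n s v = sg m s' w) : n = m ∧ s = s' := by
  obtain ⟨rfl, h1⟩ := (inG_sg n s hv).idx (h ▸ inG_sg m s' hw)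
  refine ⟨rfl, funext fun i => ?_⟩
  rcases lt_or_ge i n with hi | hi
  · exact h1 i hi
  · rw [hs i hi, hs' i hi]

end Pool.Agent.Lib.MP_1f0905_gt.Mf
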