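import Pool.Agent.Lib.MP_1f0905_gt.Mf.Cantor

/-!
Data for thickening the space `Sp D` to a manifold: one line chart for every level.
-/

open Set Filter Topology

namespace Pool.Agent.Lib.MP_1f0905_gt.Mf

/-- The data of one chart. -/
structure Lv (Ω X : Type) where
  V : Ω × (ℕ → Bool) → Set ℝ
  c : Ω × (ℕ → Bool) → ℝ
  ρ : ℝ → ℝ
  pos : ℝ → Ω × ℝ
  ht : ℝ → ℝ
  loc : X → ℝ

variable {Ω : Type} [LinearOrder Ω]

/-- The pieces of the chart `δ`: an earlier level and a gap. -/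
def Ix (D : Dat Ω) (δ : Ω) : Set (Ω × (ℕ → Bool)) := {j | j.1 < δ ∧ j.2 ∈ T (D.ι δ j.1)}

/-- The affine map onto the gap of a piece. -/
noncomputable def sj (D : Dat Ω) (δ : Ω) (j : Ω × (ℕ → Bool)) : ℝ → ℝ := sg (D.ι δ j.1) j.2

/-- Its inverse. -/
noncomputable def sji (D : Dat Ω) (δ : Ω) (j : Ω × (ℕ → Bool)) : ℝ → ℝ := sgi (D.ι δ j.1) j.2

section
variable {D : Dat Ω} {δ : Ω}

theorem sji_sj (j : Ω × (ℕ → Bool)) (v : ℝ) : sji D δ j (sj D δ j v) = v := sgi_sg _ _ _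

theorem sj_sji (j : Ω × (ℕ → Bool)) (e : ℝ) : sj D δ j (sji D δ j e) = e := sg_sgi _ _ _

theorem continuous_sj (j : Ω × (ℕ → Bool)) : Continuous (sj D δ j) := continuous_sg _ _

theorem continuous_sji (j : Ω × (ℕ → Bool)) : Continuous (sji D δ j) := continuous_sgi _ _

theorem sj_idx {j j' : Ω × (ℕ → Bool)} (hj : j ∈ Ix D δ) (hj' : j' ∈ Ix D δ) {v w : ℝ}
    (hv : |v| < 2) (hw : |w| < 2) (h : sj D δ j v = sj D δ j' w) : j = j' :=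
  have h1 := sg_idx hj.2 hj'.2 hv hw h
  Prod.ext (D.ι_inj δ hj.1 hj'.1 h1.1) h1.2

theorem Ix_finite (D : Dat Ω) (δ : Ω) (N : ℕ) : {j | j ∈ Ix D δ ∧ D.ι δ j.1 < N}.Finite :=
  ((D.ι_finite δ N).prod (T_finite N)).subset fun _ hj =>
    ⟨⟨hj.1.1, hj.2⟩, T_mono hj.2.le hj.1.2⟩

theorem Ix_countable (D : Dat Ω) (δ : Ω) : (Ix D δ).Countable :=
  (countable_iUnion fun N => (Ix_finite D δ N).countable).mono fun j hj =>
    mem_iUnion.2 ⟨D.ι δ j.1 + 1, And.intro hj (Nat.lt_succ_self _)⟩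

end

variable [WellFoundedLT Ω]

/-- The chart `x` of level `δ` fits to the earlier charts. -/
structure Step (D : Dat Ω) (f : Ω → Lv Ω (Sp D)) (δ : Ω) (x : Lv Ω (Sp D)) : Prop where
  opn : ∀ j ∈ Ix D δ, IsOpen (x.V j)
  strip : ∀ j ∈ Ix D δ, ∀ v ∈ x.V j, |v| < 2
  lt : ∀ j ∈ Ix D δ, ∀ v ∈ x.V j, (f j.1).ρ v < x.c j
  clo : ∀ j ∈ Ix D δ, ∀ v ∈ closure (x.V j), (f j.1).ρ v < x.c j → v ∈ x.V j
  cpos : ∀ j ∈ Ix D δ, 0 < x.c j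
  cnew : ∀ j ∈ Ix D δ, ∀ γ, γ < δ → ∀ j' ∈ Ix D γ, x.c j ≠ (f γ).c j'
  disj : ∀ j ∈ Ix D δ, ∀ β, β < δ → D.ι δ β < D.ι δ j.1 → ∀ v ∈ x.V j, ∀ e,
    (f j.1).pos v ≠ (f β).pos e
  uniq : ∀ j ∈ Ix D δ, ∀ j' ∈ Ix D δ, j.1 = j'.1 → ∀ v ∈ x.V j, v ∈ x.V j' → j = j'
  old : ∀ j ∈ Ix D δ, ∀ v ∈ x.V j, x.pos (sj D δ j v) = (f j.1).pos v ∧
    x.ht (sj D δ j v) = (f j.1).ht v + (f j.1).ρ v / (x.c j - (f j.1).ρ v) ∧
    x.ρ (sj D δ j v) = (f j.1).ρ v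
  new : ∀ e, (∀ j ∈ Ix D δ, ∀ v ∈ x.V j, sj D δ j v ≠ e) → x.pos e = (δ, e) ∧ x.ht e = 0
  cont : Continuous x.ρ
  nonneg : ∀ e, 0 ≤ x.ρ e
  cpt : IsCompact {e | x.ρ e ≤ 1}
  zero : ∀ e, x.ρ e = 0 ↔ ∃ z ∈ D.W δ, x.loc z = e
  lcont : ContinuousOn x.loc (D.W δ)
  lpos : ∀ z ∈ D.W δ, x.pos (x.loc z) = (z.lev, kap z.pt) ∧ x.ht (x.loc z) = 0 ∧ |x.loc z| < 2
  fin : ∀ e, 0 < x.ρ e → ∃ s : Set Ω, s.Finite ∧ ∀ᶠ y in 𝓝 e, (x.pos y).1 ∈ s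

theorem Step.congr {D : Dat Ω} {f g : Ω → Lv Ω (Sp D)} {δ : Ω}
    {x : Lv Ω (Sp D)} (h : ∀ γ, γ < δ → f γ = g γ) (H : Step D f δ x) : Step D g δ x where
  opn := H.opn
  strip := H.strip
  lt j hj := h j.1 hj.1 ▸ H.lt j hj
  clo j hj := h j.1 hj.1 ▸ H.clo j hj
  cpos := H.cpos
  cnew j hj γ hγ := h γ hγ ▸ H.cnew j hj γ hγ
  disj j hj β hβ := h j.1 hj.1 ▸ h β hβ ▸ H.disj j hj β hβ
  uniq := H.uniq
  old j hj := h j.1 hj.1 ▸ H.old j hj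
  new := H.new
  cont := H.cont
  nonneg := H.nonneg
  cpt := H.cpt
  zero := H.zero
  lcont := H.lcont
  lpos := H.lpos
  fin := H.fin

/-- Transfinite recursion with an invariant. -/
theorem exists_rec {L : Type} [Nonempty L] (P : (Ω → L) → Ω → L → Prop)
    (hc : ∀ f g δ x, (∀ γ, γ < δ → f γ = g γ) → P f δ x → P g δ x)
    (hex : ∀ f δ, (∀ γ, γ < δ → P f γ (f γ)) → ∃ x, P f δ x) : ∃ f, ∀ δ, P f δ (f δ) := by
  classical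
  let F : ∀ δ : Ω, (∀ γ, γ < δ → L) → L := fun δ prev =>
    Classical.epsilon (P (fun γ => if h : γ < δ then prev γ h else Classical.arbitrary L) δ)
  let f : Ω → L := (wellFounded_lt (α := Ω)).fix F
  refine ⟨f, fun δ => ?_⟩
  induction δ using WellFoundedLT.induction with
  | ind δ ih =>
    have e : f δ = Classical.epsilon
        (P (fun γ => if γ < δ then f γ else Classical.arbitrary L) δ) := by
      simp only [f]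
      rw [WellFounded.fix_eq]
      rfl
    obtain ⟨x, hx⟩ := hex f δ ih
    refine hc (fun γ => if γ < δ then f γ else Classical.arbitrary L) f δ _
      (fun γ hγ => if_pos hγ) ?_
    rw [e]
    exact Classical.epsilon_spec ⟨x, hc f _ δ x (fun γ hγ => (if_pos hγ).symm) hx⟩

end Pool.Agent.Lib.MP_1f0905_gt.Mf
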