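import Pool.Agent.Lib.MP_1f0905_gt.Mf.Top

/-!
The manifold contains no perfect preimage of the first uncountable ordinal and is not quasi
developable.
-/

open Set Filter Topology TopologicalSpace

namespace Pool.Agent.Lib.MP_1f0905_gt.Mf

variable {Ω : Type} [LinearOrder Ω] [WellFoundedLT Ω]
variable {D : Dat Ω} {f : Ω → Lv Ω (Sp D)}
variable {F : Type} [NormedAddCommGroup F] [NormedSpace ℝ F] {u : F}

theorem quasiDevelopable_of_isInducing {X Y : Type} [TopologicalSpace X] [TopologicalSpace Y]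
    {j : X → Y} (hj : IsInducing j) (h : QuasiDevelopable Y) : QuasiDevelopable X := by
  obtain ⟨G, hG, h⟩ := h
  refine ⟨fun n => preimage j '' G n, ?_, fun x U hU hx => ?_⟩
  · rintro n _ ⟨U, hU, rfl⟩
    exact (hG n U hU).preimage hj.continuous
  · obtain ⟨O, hO, rfl⟩ := hj.isOpen_iff.1 hU
    obtain ⟨n, ⟨V, hV, hxV⟩, h2⟩ := h (j x) O hO hx
    refine ⟨n, ⟨_, ⟨⟨V, hV.1, rfl⟩, hxV⟩, hxV⟩, ?_⟩
    rintro y ⟨_, ⟨⟨V', hV', rfl⟩, h3⟩, h4⟩
    exact h2 ⟨V', ⟨hV', h3⟩, h4⟩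

theorem Good.not_quasiDevelopable [Uncountable Ω] (G : Good D f univ) :
    ¬ QuasiDevelopable (Mfd f u) := fun h =>
  D.not_quasiDevelopable (quasiDevelopable_of_isInducing
    ((G.isClosedEmbedding u).isInducing.comp (isInducing_prodMkLeft (0 : F))) h)

theorem Good.pos_pos (G : Good D f univ) (δ : Ω) :
    ∀ e, (f ((f δ).pos e).1).pos ((f δ).pos e).2 = (f δ).pos e := by
  induction δ using WellFoundedLT.induction with
  | ind δ ih =>
    intro e
    rcases (G.step δ (mem_univ _)).dich e with ⟨α, hα, v, hv, rfl⟩ | h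
    · rw [((G.step δ (mem_univ _)).old α hα v hv).1]
      exact ih α.1 hα.1 v
    · rw [h.1]
      exact h.1

theorem Good.mem_range (G : Good D f univ) (m : Mfd f u) : ∃ p, ch f u m.1.1.1 p = m := by
  obtain ⟨δ, p, rfl⟩ := exists_ch m
  exact ⟨_, exists_ch_of_pos (G.pos_pos δ p.1)⟩

theorem Good.finite_levels (G : Good D f univ) {A : Set (Mfd f u)} (hA : IsCompact A)
    (h : ∀ m ∈ A, 0 < rho f m) : ((fun m : Mfd f u => m.1.1.1) '' A).Finite := by
  refine hA.induction_on (p := fun s => ((fun m : Mfd f u => m.1.1.1) '' s).Finite) (by simp)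
    (fun s t hst ht => ht.subset (image_mono hst))
    (fun s t hs ht => by simpa only [image_union] using hs.union ht) fun m hm => ?_
  obtain ⟨δ, p, rfl⟩ := exists_ch m
  obtain ⟨s, hs, h1⟩ := (G.step δ (mem_univ _)).fin p.1 (G.rho_ch δ p ▸ h _ hm)
  refine ⟨{m | m.1.1.1 ∈ s}, mem_nhdsWithin_of_mem_nhds ?_, hs.subset ?_⟩
  · rw [← (G.isOpenEmbedding u δ).map_nhds_eq]
    exact (continuousAt_fst (p := p)).eventually h1
  · rintro _ ⟨m, hm, rfl⟩
    exact hm

theorem Good.countable_levels (G : Good D f univ) {Z : Set (Mfd f u)}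
    (hZ : ∀ B ⊆ Z, B.Countable → ∃ A, IsCompact A ∧ B ⊆ A) :
    ((fun m : Mfd f u => m.1.1.1) '' Z).Countable := by
  have h1 : (Sp.lev '' {z : Sp D | ∃ t, emb f u (z, t) ∈ Z}).Countable := by
    refine D.countable_levels fun B hB hBc => ?_
    choose! t ht using fun z (hz : z ∈ B) => hB hz
    obtain ⟨A, hA, hBA⟩ := hZ ((fun z => emb f u (z, t z)) '' B)
      (by rintro _ ⟨z, hz, rfl⟩; exact ht z hz) (hBc.image _)
    exact ⟨Prod.fst '' (emb f u ⁻¹' A),
      ((G.isClosedEmbedding u).isCompact_preimage hA).image continuous_fst,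
      fun z hz => ⟨(z, t z), hBA ⟨z, hz, rfl⟩, rfl⟩⟩
  have h2 : ∀ n : ℕ, ((fun m : Mfd f u => m.1.1.1) ''
      (Z ∩ {m | 1 / ((n : ℝ) + 1) ≤ rho f m})).Finite := by
    intro n
    by_contra hinf
    obtain ⟨S, hS, hS1, hS2⟩ := (show Set.Infinite _ from hinf).exists_subset_countable_infinite
    obtain ⟨_, z₀, -⟩ := (show Set.Infinite _ from hinf).nonempty
    have : Nonempty (Mfd f u) := ⟨z₀⟩
    choose! c hc using fun a (ha : a ∈ S) => hS ha
    obtain ⟨A, hA, hBA⟩ := hZ (c '' S) (by rintro _ ⟨a, ha, rfl⟩; exact (hc a ha).1.1)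
      (hS1.image c)
    refine hS2 ((G.finite_levels (hA.inter_right (isClosed_le
      (continuous_const (y := 1 / ((n : ℝ) + 1))) G.continuous_rho)) fun m hm =>
        lt_of_lt_of_le Nat.one_div_pos_of_nat hm.2).subset fun a ha => ?_)
    exact ⟨c a, ⟨hBA ⟨a, ha, rfl⟩, (hc a ha).1.2⟩, (hc a ha).2⟩
  refine (h1.union (countable_iUnion fun n => (h2 n).countable)).mono ?_
  rintro _ ⟨m, hm, rfl⟩
  rcases ((G.step m.1.1.1 (mem_univ _)).nonneg m.1.1.2).lt_or_eq with h | h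
  · obtain ⟨n, hn⟩ := exists_nat_one_div_lt h
    exact Or.inr (mem_iUnion.2 ⟨n, m, ⟨hm, hn.le⟩, rfl⟩)
  · obtain ⟨w, rfl⟩ := G.exists_emb (m := m) h.symm
    exact Or.inl ⟨w.1, ⟨w.2, hm⟩, by simp only [G.emb_val]⟩

theorem Good.not_containsPerfectPreimage [SecondCountableTopology F] (G : Good D f univ) :
    ¬ ContainsPerfectPreimageOfOmegaOne (Mfd f u) := by
  rintro ⟨Z, g, hg, hsurj⟩
  have hp : IsProperMap g := isProperMap_iff_isClosedMap_and_compact_fibers.2 hg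
  have h1 := G.countable_levels (Z := Z) fun B hBZ hB => by
    obtain ⟨ξ, hξ, h⟩ := Dat.exists_bound_omega_one
      ((hB.preimage_of_injOn Subtype.val_injective.injOn).image g)
    exact ⟨_, (hp.isCompact_preimage hξ).image continuous_subtype_val, fun z hz =>
      ⟨⟨z, hBZ hz⟩, Or.inl (h ⟨⟨z, hBZ hz⟩, hz, rfl⟩), rfl⟩⟩
  have h2 : ∀ α : Ω, ∃ t : Set (ℝ × F), t.Countable ∧ (∀ x ∈ t, ch f u α x ∈ Z) ∧
      ∀ x, ch f u α x ∈ Z → x ∈ closure t := fun α => by
    obtain ⟨t, h3, h4, h5⟩ :=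
      (IsSeparable.of_separableSpace {x | ch f u α x ∈ Z}).exists_countable_dense_subset
    exact ⟨t, h4, h3, h5⟩
  choose t ht1 ht2 ht3 using h2
  set B : Set (Mfd f u) := ⋃ α ∈ (fun m : Mfd f u => m.1.1.1) '' Z, ch f u α '' t α with hB
  have hBc : B.Countable := h1.biUnion fun α _ => (ht1 α).image _
  obtain ⟨ξ, hξ, h⟩ := Dat.exists_bound_omega_one
    ((hBc.preimage_of_injOn Subtype.val_injective.injOn).image g)
  obtain ⟨η, -, hη⟩ := Dat.exists_bound_omega_one (countable_singleton ξ)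
  obtain ⟨z, rfl⟩ := hsurj η
  have h3 : z.1 ∈ closure B := by
    obtain ⟨p, hp⟩ := G.mem_range z.1
    have h4 := map_mem_closure (continuous_ch (f := f) (u := u) z.1.1.1.1) (ht3 _ p (hp.symm ▸ z.2))
      (t := B) fun x hx => mem_biUnion (mem_image_of_mem _ z.2) (mem_image_of_mem _ hx)
    rwa [hp] at h4
  have hBZ : B ⊆ Z := by
    refine iUnion₂_subset fun α _ => ?_
    rintro _ ⟨x, hx, rfl⟩
    exact ht2 α x hx
  have h4 : z ∈ closure (Subtype.val ⁻¹' B : Set Z) := by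
    rw [closure_subtype, image_preimage_eq_of_subset (by simpa using hBZ)]
    exact h3
  have h5 : g z ∈ Iio ξ ∪ {ξ} := hξ.isClosed.closure_subset
    (map_mem_closure hg.1 h4 fun w hw => Or.inl (h ⟨w, hw, rfl⟩))
  have h6 : ξ < g z := hη rfl
  rcases h5 with h5 | h5
  · exact lt_asymm h6 h5
  · exact h6.ne' h5

theorem exists_manifold (k : ℕ) : ∃ (M : Type) (_ : TopologicalSpace M)
    (_ : ChartedSpace (EuclideanSpace ℝ (Fin (k + 2))) M), T2Space M ∧ ConnectedSpace M ∧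
    WeightLE M (Cardinal.aleph 1) ∧ ¬ ContainsPerfectPreimageOfOmegaOne M ∧
    ¬ QuasiDevelopable M := by
  have h1 : Cardinal.mk (Cardinal.aleph 1).ord.ToType = Cardinal.aleph 1 :=
    Cardinal.mk_ord_toType _
  have h2 : Uncountable (Cardinal.aleph 1).ord.ToType := by
    rw [← Cardinal.aleph0_lt_mk_iff, h1]
    exact Cardinal.aleph0_lt_aleph_one
  obtain ⟨D⟩ := exists_dat (Ω := (Cardinal.aleph 1).ord.ToType) fun δ => by
    rw [← Cardinal.le_aleph0_iff_set_countable, ← Cardinal.lt_aleph_one_iff]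
    exact (Cardinal.mk_Iio_lt δ (by simp)).trans_eq h1
  obtain ⟨f, G⟩ := exists_good D
  let L : EuclideanSpace ℝ (Fin (k + 2)) ≃L[ℝ] ℝ × EuclideanSpace ℝ (Fin (k + 1)) :=
    ContinuousLinearEquiv.ofFinrankEq (by simp [add_left_comm])
  obtain ⟨u, hu⟩ := exists_norm_eq (EuclideanSpace ℝ (Fin (k + 1))) zero_le_one
  obtain ⟨C⟩ := G.charted (u := u) L.toHomeomorph
  exact ⟨Mfd f u, inferInstance, C, G.t2 hu, G.connected, G.weightLE h1.le,
    G.not_containsPerfectPreimage, G.not_quasiDevelopable⟩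

end Pool.Agent.Lib.MP_1f0905_gt.Mf
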