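import Pool.Agent.Lib.MP_1f0905_gt.Mf.Defs

/-!
Two charts: transition maps and branch points.
-/

open Set Filter Topology

namespace Pool.Agent.Lib.MP_1f0905_gt.Mf

variable {Ω : Type} [LinearOrder Ω] [WellFoundedLT Ω]

/-- The charts are constructed on an initial segment. -/
structure Good (D : Dat Ω) (f : Ω → Lv Ω (Sp D)) (S : Set Ω) : Prop where
  low : ∀ δ ∈ S, ∀ α, α < δ → α ∈ S
  step : ∀ δ ∈ S, Step D f δ (f δ)

variable {D : Dat Ω} {f : Ω → Lv Ω (Sp D)} {S : Set Ω}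

theorem Step.dich {δ : Ω} {x : Lv Ω (Sp D)} (H : Step D f δ x) (e : ℝ) :
    (∃ j ∈ Ix D δ, ∃ v ∈ x.V j, sj D δ j v = e) ∨ (x.pos e = (δ, e) ∧ x.ht e = 0) := by
  by_cases h : ∃ j ∈ Ix D δ, ∃ v ∈ x.V j, sj D δ j v = e
  · exact Or.inl h
  · exact Or.inr (H.new e fun j hj v hv he => h ⟨j, hj, v, hv, he⟩)

theorem Good.lev_le (G : Good D f S) : ∀ δ ∈ S, ∀ e, ((f δ).pos e).1 ≤ δ := by
  intro δ
  induction δ using WellFoundedLT.induction with
  | ind δ ih =>
    intro hδ e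
    rcases (G.step δ hδ).dich e with ⟨α, hα, v, hv, rfl⟩ | h
    · rw [((G.step δ hδ).old α hα v hv).1]
      exact (ih α.1 hα.1 (G.low δ hδ α.1 hα.1) v).trans hα.1.le
    · rw [h.1]

theorem Good.rho_pos (G : Good D f S) :
    ∀ δ ∈ S, ∀ e, (f δ).ρ e = (f ((f δ).pos e).1).ρ ((f δ).pos e).2 := by
  intro δ
  induction δ using WellFoundedLT.induction with
  | ind δ ih =>
    intro hδ e
    rcases (G.step δ hδ).dich e with ⟨α, hα, v, hv, rfl⟩ | h
    · rw [((G.step δ hδ).old α hα v hv).1, ((G.step δ hδ).old α hα v hv).2.2]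
      exact ih α.1 hα.1 (G.low δ hδ α.1 hα.1) v
    · rw [h.1]

theorem Good.rho_eq (G : Good D f S) {β δ : Ω} (hβ : β ∈ S) (hδ : δ ∈ S) {e e' : ℝ}
    (h : (f β).pos e = (f δ).pos e') : (f β).ρ e = (f δ).ρ e' := by
  rw [G.rho_pos β hβ, G.rho_pos δ hδ, h]

theorem Good.pos_inj (G : Good D f S) : ∀ δ ∈ S, Function.Injective (f δ).pos := by
  intro δ
  induction δ using WellFoundedLT.induction with
  | ind δ ih =>
    intro hδ e e' h
    have H := G.step δ hδ
    rcases H.dich e with ⟨α, hα, v, hv, rfl⟩ | h1 <;>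
      rcases H.dich e' with ⟨α', hα', v', hv', rfl⟩ | h2
    · rw [(H.old α hα v hv).1, (H.old α' hα' v' hv').1] at h
      rcases lt_trichotomy (D.ι δ α.1) (D.ι δ α'.1) with hl | hl | hl
      · exact absurd h.symm (H.disj α' hα' α.1 hα.1 hl v' hv' v)
      · have e := D.ι_inj δ hα.1 hα'.1 hl
        rw [← e] at h
        obtain rfl := ih α.1 hα.1 (G.low δ hδ α.1 hα.1) h
        rw [H.uniq α hα α' hα' e v hv hv']
      · exact absurd h (H.disj α hα α'.1 hα'.1 hl v hv v')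
    · rw [(H.old α hα v hv).1, h2.1] at h
      have := G.lev_le α.1 (G.low δ hδ α.1 hα.1) v
      rw [h] at this
      exact absurd hα.1 (not_lt.2 this)
    · rw [(H.old α' hα' v' hv').1, h1.1] at h
      have := G.lev_le α'.1 (G.low δ hδ α'.1 hα'.1) v'
      rw [← h] at this
      exact absurd hα'.1 (not_lt.2 this)
    · rw [h1.1, h2.1] at h
      exact congrArg Prod.snd h

/-- A point of the chart `δ` which also lies in an earlier chart is old. -/
theorem Good.old_of (G : Good D f S) {β δ : Ω} (hδ : δ ∈ S) (hβ : β < δ) {e e' : ℝ}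
    (h : (f β).pos e = (f δ).pos e') :
    ∃ j ∈ {j | j ∈ Ix D δ ∧ D.ι δ j.1 < D.ι δ β + 1}, ∃ v ∈ (f δ).V j, sj D δ j v = e' := by
  have H := G.step δ hδ
  rcases H.dich e' with ⟨α, hα, v, hv, rfl⟩ | h2
  · refine ⟨α, ⟨hα, ?_⟩, v, hv, rfl⟩
    by_contra hc
    rw [(H.old α hα v hv).1] at h
    exact H.disj α hα β hβ (by omega) v hv e h.symm
  · have := G.lev_le β (G.low δ hδ β hβ) e
    rw [h, h2.1] at this
    exact absurd hβ (not_lt.2 this)

/-- Induction on pairs of levels. -/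
theorem pair_ind {P : Ω → Ω → Prop} (h : ∀ β δ, (∀ α α', max α α' < max β δ → P α α') → P β δ)
    (β δ : Ω) : P β δ := by
  have : ∀ ξ : Ω, ∀ β δ, max β δ = ξ → P β δ := by
    intro ξ
    induction ξ using WellFoundedLT.induction with
    | ind ξ ih => exact fun β δ e => h β δ fun α α' hl => ih _ (e ▸ hl) α α' rfl
  exact this _ β δ rfl

theorem Good.shift_cont (G : Good D f S) {α δ : Ω} (hδ : δ ∈ S) (hα : α < δ) {v c : ℝ}
    (hv : (f α).ρ v < c) : ContinuousAt (fun w => (f α).ρ w / (c - (f α).ρ w)) v := by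
  have h := (G.step α (G.low δ hδ α hα)).cont
  exact h.continuousAt.div (continuousAt_const.sub h.continuousAt) (sub_pos.2 hv).ne'

/-- Local transition maps. -/
theorem Good.trans (G : Good D f S) (β δ : Ω) : β ∈ S → δ ∈ S → ∀ e e' : ℝ,
    (f β).pos e = (f δ).pos e' → ∃ τ : ℝ → ℝ, ContinuousAt τ e ∧ τ e = e' ∧
      (∀ᶠ y in 𝓝 e, (f β).pos y = (f δ).pos (τ y)) ∧
      ContinuousAt (fun y => (f β).ht y - (f δ).ht (τ y)) e := by
  induction β, δ using pair_ind with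
  | h β δ ih =>
    intro hβ hδ e e' h
    rcases lt_trichotomy β δ with hl | rfl | hl
    · have H := G.step δ hδ
      obtain ⟨α, ⟨hα, -⟩, v, hv, rfl⟩ := G.old_of hδ hl h
      rw [(H.old α hα v hv).1] at h
      obtain ⟨τ, h1, rfl, h3, h4⟩ := ih β α.1
        (lt_of_lt_of_le (max_lt hl hα.1) (le_max_right _ _)) hβ (G.low δ hδ α.1 hα.1) e v h
      have h5 : ∀ᶠ y in 𝓝 e, τ y ∈ (f δ).V α := h1 ((H.opn α hα).mem_nhds hv)
      refine ⟨fun y => sj D δ α (τ y), (continuous_sj _).continuousAt.comp h1, rfl, ?_, ?_⟩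
      · filter_upwards [h3, h5] with y a1 a2
        rw [(H.old α hα _ a2).1, a1]
      · refine (h4.sub ((G.shift_cont hδ hα.1 (H.lt α hα _ hv)).comp h1)).congr ?_
        filter_upwards [h5] with y a2
        simp only [Pi.sub_apply, Function.comp_apply, (H.old α hα _ a2).2.1]
        ring
    · obtain rfl := G.pos_inj β hβ h
      exact ⟨id, continuousAt_id, rfl, Eventually.of_forall fun _ => rfl, by
        simpa using continuousAt_const⟩
    · have H := G.step β hβ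
      obtain ⟨α, ⟨hα, -⟩, v, hv, rfl⟩ := G.old_of hβ hl h.symm
      rw [(H.old α hα v hv).1] at h
      obtain ⟨τ, h1, rfl, h3, h4⟩ := ih α.1 δ
        (lt_of_lt_of_le (max_lt hα.1 hl) (le_max_left _ _)) (G.low β hβ α.1 hα.1) hδ v e' h
      have h0 : Tendsto (sji D β α) (𝓝 (sj D β α v)) (𝓝 v) := by
        simpa [sji_sj] using (continuous_sji (D := D) (δ := β) α).tendsto (sj D β α v)
      have h5 : ∀ᶠ y in 𝓝 (sj D β α v), sji D β α y ∈ (f β).V α :=
        h0 ((H.opn α hα).mem_nhds hv)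
      have hc : ∀ {g : ℝ → ℝ}, ContinuousAt g v →
          ContinuousAt (fun y => g (sji D β α y)) (sj D β α v) := fun {g} hg =>
        ContinuousAt.comp (by rwa [sji_sj]) (continuous_sji _).continuousAt
      refine ⟨fun y => τ (sji D β α y),
        ContinuousAt.comp (by rwa [sji_sj]) (continuous_sji _).continuousAt,
        by simp only [sji_sj], ?_, ?_⟩
      · filter_upwards [h0.eventually h3, h5] with y a1 a2
        rw [← a1, ← (H.old α hα _ a2).1, sj_sji]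
      · refine ((hc h4).add (hc (G.shift_cont hβ hα.1 (H.lt α hα _ hv)))).congr ?_
        filter_upwards [h5] with y a2
        have := (H.old α hα _ a2).2.1
        rw [sj_sji] at this
        simp only [Pi.add_apply, this]
        ring

/-- At a common point of two charts the difference of the heights converges. -/
theorem Good.ht_tendsto (G : Good D f S) {β δ : Ω} (hβ : β ∈ S) (hδ : δ ∈ S) {I : Type}
    {l : Filter I} {a b : I → ℝ} {e e' : ℝ} (ha : Tendsto a l (𝓝 e))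
    (hab : ∀ᶠ i in l, (f β).pos (a i) = (f δ).pos (b i)) (h : (f β).pos e = (f δ).pos e') :
    Tendsto (fun i => (f β).ht (a i) - (f δ).ht (b i)) l (𝓝 ((f β).ht e - (f δ).ht e')) := by
  obtain ⟨τ, -, rfl, h3, h4⟩ := G.trans β δ hβ hδ e e' h
  refine (h4.tendsto.comp ha).congr' ?_
  filter_upwards [ha.eventually h3, hab] with i a1 a2
  rw [Function.comp_apply, G.pos_inj δ hδ (a1.symm.trans a2)]

theorem Good.rho_lim (G : Good D f S) {β δ : Ω} (hβ : β ∈ S) (hδ : δ ∈ S) {I : Type}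
    {l : Filter I} [l.NeBot] {a b : I → ℝ} {e e' : ℝ} (ha : Tendsto a l (𝓝 e))
    (hb : Tendsto b l (𝓝 e')) (hab : ∀ᶠ i in l, (f β).pos (a i) = (f δ).pos (b i)) :
    (f β).ρ e = (f δ).ρ e' :=
  tendsto_nhds_unique_of_eventuallyEq (((G.step β hβ).cont.tendsto e).comp ha)
    (((G.step δ hδ).cont.tendsto e').comp hb) (hab.mono fun _ h => G.rho_eq hβ hδ h)

theorem abs_sub_atTop {I : Type} {l : Filter I} {g h : I → ℝ} {r : ℝ}
    (hg : Tendsto (fun i => |g i|) l atTop) (hh : Tendsto h l (𝓝 r)) :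
    Tendsto (fun i => |g i - h i|) l atTop := by
  refine tendsto_atTop_mono (fun i => abs_sub_abs_le_abs_sub _ _) ?_
  simpa only [sub_eq_add_neg] using hg.atTop_add hh.abs.neg

/-- The statement on branch points. -/
def Sep (f : Ω → Lv Ω (Sp D)) (β δ : Ω) : Prop :=
  ∀ (I : Type) (𝒰 : Ultrafilter I) (a b : I → ℝ) (e e' : ℝ), Tendsto a 𝒰 (𝓝 e) →
    Tendsto b 𝒰 (𝓝 e') → (∀ᶠ i in 𝒰, (f β).pos (a i) = (f δ).pos (b i)) →
    (f β).pos e = (f δ).pos e' ∨
      ((∃ γ, γ ≤ max β δ ∧ ∃ j ∈ Ix D γ, (f β).ρ e = (f γ).c j) ∧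
        Tendsto (fun i => |(f β).ht (a i) - (f δ).ht (b i)|) 𝒰 atTop)

theorem Good.sep_lt (G : Good D f S) {β δ : Ω} (hδ : δ ∈ S) (hl : β < δ)
    (ih : ∀ α, α < δ → Sep f β α) : Sep f β δ := by
  intro I 𝒰 a b e e' ha hb hab
  have hβ := G.low δ hδ β hl
  have H := G.step δ hδ
  have h1 : (⋃ j ∈ {j | j ∈ Ix D δ ∧ D.ι δ j.1 < D.ι δ β + 1},
      {i | sji D δ j (b i) ∈ (f δ).V j}) ∈ 𝒰 := by
    refine mem_of_superset hab fun i hi => ?_
    obtain ⟨α, hα, v, hv, he⟩ := G.old_of hδ hl hi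
    exact mem_biUnion hα (by simpa only [mem_ofPred_eq, ← he, sji_sj] using hv)
  obtain ⟨α, ⟨hα, -⟩, h2⟩ := (Ultrafilter.finite_biUnion_mem_iff (Ix_finite D δ _)).1 h1
  have hαS := G.low δ hδ α.1 hα.1
  have hw : Tendsto (fun i => sji D δ α (b i)) 𝒰 (𝓝 (sji D δ α e')) :=
    ((continuous_sji α).tendsto e').comp hb
  have h3 : ∀ᶠ i in 𝒰, (f β).pos (a i) = (f α.1).pos (sji D δ α (b i)) := by
    filter_upwards [hab, h2] with i a1 a2
    rw [a1, ← (H.old α hα _ a2).1, sj_sji]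
  have h4 : ∀ᶠ i in 𝒰, |(f β).ht (a i) - (f α.1).ht (sji D δ α (b i)) -
      (f α.1).ρ (sji D δ α (b i)) / ((f δ).c α - (f α.1).ρ (sji D δ α (b i)))| =
      |(f β).ht (a i) - (f δ).ht (b i)| := by
    filter_upwards [h2] with i a2
    have := (H.old α hα _ a2).2.1
    rw [sj_sji] at this
    rw [this, sub_sub]
  have hcl : sji D δ α e' ∈ closure ((f δ).V α) := mem_closure_of_tendsto hw h2
  have hρ := ((G.step α.1 hαS).cont.tendsto _).comp hw
  have hle : (f α.1).ρ (sji D δ α e') ≤ (f δ).c α :=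
    le_of_tendsto hρ (Eventually.mono h2 fun i hi => (H.lt α hα _ hi).le)
  have hρe := G.rho_lim hβ hαS ha hw h3
  have hmax : max β α.1 < δ := max_lt hl hα.1
  rcases hle.lt_or_eq with hlt | heq
  · have hv := H.clo α hα _ hcl hlt
    rcases ih α.1 hα.1 I 𝒰 a _ e _ ha hw h3 with h5 | ⟨⟨γ, hγ, h5⟩, h6⟩
    · left
      rw [h5, ← (H.old α hα _ hv).1, sj_sji]
    · exact Or.inr ⟨⟨γ, (hγ.trans hmax.le).trans (le_max_right _ _), h5⟩,
        (abs_sub_atTop h6 ((G.shift_cont hδ hα.1 hlt).tendsto.comp hw)).congr' h4⟩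
  · rcases ih α.1 hα.1 I 𝒰 a _ e _ ha hw h3 with h5 | ⟨⟨γ, hγ, γ', hγ', h5⟩, -⟩
    · refine Or.inr ⟨⟨δ, le_max_right _ _, α, hα, hρe.trans heq⟩, Tendsto.congr' h4 ?_⟩
      have h6 := G.ht_tendsto hβ hαS ha h3 h5
      have h7 : Tendsto (fun i => (f δ).c α - (f α.1).ρ (sji D δ α (b i))) 𝒰 (𝓝[>] 0) := by
        refine tendsto_nhdsWithin_iff.2 ⟨?_, Eventually.mono h2 fun i hi =>
          sub_pos.2 (H.lt α hα _ hi)⟩
        have := (tendsto_const_nhds (x := (f δ).c α)).sub hρ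
        rwa [heq, sub_self] at this
      have h8 : Tendsto (fun i => (f α.1).ρ (sji D δ α (b i)) /
          ((f δ).c α - (f α.1).ρ (sji D δ α (b i)))) 𝒰 atTop := by
        simp only [div_eq_mul_inv]
        exact Tendsto.pos_mul_atTop (heq ▸ H.cpos α hα) hρ (tendsto_inv_nhdsGT_zero.comp h7)
      simpa only [abs_sub_comm] using abs_sub_atTop (tendsto_abs_atTop_atTop.comp h8) h6
    · exact absurd (heq.symm.trans (hρe.symm.trans h5))
        (H.cnew α hα γ (hγ.trans_lt hmax) γ' hγ')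

theorem Good.sep (G : Good D f S) (β δ : Ω) : β ∈ S → δ ∈ S → Sep f β δ := by
  induction β, δ using pair_ind with
  | h β δ ih =>
    intro hβ hδ
    rcases lt_trichotomy β δ with hl | rfl | hl
    · exact G.sep_lt hδ hl fun α hα =>
        ih β α (lt_of_lt_of_le (max_lt hl hα) (le_max_right _ _)) hβ (G.low δ hδ α hα)
    · intro I 𝒰 a b e e' ha hb hab
      left
      rw [tendsto_nhds_unique_of_eventuallyEq ha hb (hab.mono fun _ h => G.pos_inj β hβ h)]
    · intro I 𝒰 a b e e' ha hb hab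
      rcases G.sep_lt hβ hl (fun α hα => ih δ α
        (lt_of_lt_of_le (max_lt hl hα) (le_max_left _ _)) hδ (G.low β hβ α hα)) I 𝒰 b a e' e hb ha
        (hab.mono fun _ h => h.symm) with h | ⟨⟨γ, hγ, h5⟩, h6⟩
      · exact Or.inl h.symm
      · refine Or.inr ⟨⟨γ, max_comm β δ ▸ hγ, ?_⟩, by simpa only [abs_sub_comm] using h6⟩
        rwa [G.rho_lim hβ hδ ha hb hab]

/-- Points of the zero-dimensional space are not branch points. -/
theorem Good.not_closure (G : Good D f S) {α β : Ω} (hα : α ∈ S)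
    (hβ : β ∈ S) {z : Sp D} (hz : z ∈ D.W α) (hz' : z ∉ D.W β) :
    (f α).loc z ∉ closure {v | ∃ e, (f α).pos v = (f β).pos e} := by
  intro hcl
  obtain ⟨𝒰, h1, h2⟩ := mem_closure_iff_ultrafilter.1 hcl
  have A := G.step α hα
  have B := G.step β hβ
  choose! b hb using fun v (hv : v ∈ {v | ∃ e, (f α).pos v = (f β).pos e}) => hv
  have hab : ∀ᶠ v in 𝒰, (f α).pos (id v) = (f β).pos (b v) := mem_of_superset h1 hb
  have h0 : (f α).ρ ((f α).loc z) = 0 := (A.zero _).2 ⟨z, hz, rfl⟩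
  have h3 : ∀ᶠ v in 𝒰, (f α).ρ v < 1 :=
    ((A.cont.tendsto _).mono_left h2).eventually (gt_mem_nhds (by rw [h0]; exact one_pos))
  obtain ⟨e', -, he'⟩ := B.cpt.ultrafilter_le_nhds (𝒰.map b) (by
    rw [le_principal_iff]
    filter_upwards [Ultrafilter.mem_map.2 (show b ⁻¹' {e | (f β).ρ e ≤ 1} ∈ 𝒰 from by
      filter_upwards [h3, hab] with v a1 a2
      exact (G.rho_eq hα hβ a2 ▸ a1.le : (f β).ρ (b v) ≤ 1))] with e he using he)
  rcases G.sep α β hα hβ ℝ 𝒰 id b _ e' h2 he' hab with h | ⟨⟨γ, hγ, γ', hγ', h⟩, -⟩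
  · obtain ⟨z', hz1, rfl⟩ := (B.zero e').1 (G.rho_eq hα hβ h ▸ h0)
    rw [(A.lpos z hz).1, (B.lpos z' hz1).1] at h
    simp only [Prod.mk.injEq] at h
    exact hz' ((Sp.ext h.1 (kap_injective h.2) : z = z') ▸ hz1)
  · have hγS : γ ∈ S := by
      have hm : max α β ∈ S := by
        rcases max_choice α β with h | h <;> rwa [h]
      rcases hγ.lt_or_eq with h | h
      · exact G.low _ hm γ h
      · rwa [h]
    exact ((G.step γ hγS).cpos γ' hγ').ne (h0.symm.trans h)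

end Pool.Agent.Lib.MP_1f0905_gt.Mf
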