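import Pool.Agent.Lib.MP_1f0905_gt.Mf.Pair

/-!
The open part of an earlier chart that is copied into a new chart.
-/

open Set Filter Topology Metric

namespace Pool.Agent.Lib.MP_1f0905_gt.Mf

variable {Ω : Type} [LinearOrder Ω] [WellFoundedLT Ω]

/-- The piece of `W δ` taken from the chart `j.1` and placed into the gap `j.2`. -/
def Pc (D : Dat Ω) (δ : Ω) (j : Ω × (ℕ → Bool)) : Set (Sp D) :=
  {z | z ∈ D.W δ ∧ z ∈ D.W j.1 ∧ (∀ β, β < δ → D.ι δ β < D.ι δ j.1 → z ∉ D.W β) ∧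
    ∀ i < D.ι δ j.1, z.pt i = j.2 i}

variable {D : Dat Ω} {f : Ω → Lv Ω (Sp D)}

theorem isClopen_Pc (δ : Ω) (j : Ω × (ℕ → Bool)) : IsClopen (Pc D δ j) := by
  have : Pc D δ j = D.W δ ∩ (D.W j.1 ∩ ((⋂ β ∈ {β | β < δ ∧ D.ι δ β < D.ι δ j.1}, (D.W β)ᶜ) ∩
      ⋂ i ∈ {i | i < D.ι δ j.1}, (fun z : Sp D => z.pt i) ⁻¹' {j.2 i})) := by
    ext z
    simp only [Pc, mem_ofPred_eq, mem_inter_iff, mem_iInter, mem_compl_iff, and_imp, mem_preimage,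
      mem_singleton_iff]
  rw [this]
  exact (D.isClopen_W δ).inter ((D.isClopen_W j.1).inter
    (((D.ι_finite δ _).isClopen_biInter fun β _ => (D.isClopen_W β).compl).inter
      ((finite_lt_nat _).isClopen_biInter fun i _ => (isClopen_discrete _).preimage
        ((continuous_apply i).comp D.continuous_pt))))

theorem Pc_unique {δ : Ω} {j j' : Ω × (ℕ → Bool)} (hj : j ∈ Ix D δ) (hj' : j' ∈ Ix D δ)
    {z : Sp D} (h : z ∈ Pc D δ j) (h' : z ∈ Pc D δ j') : j = j' := by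
  rcases lt_trichotomy (D.ι δ j.1) (D.ι δ j'.1) with hl | hl | hl
  · exact absurd h.2.1 (h'.2.2.1 j.1 hj.1 hl)
  · refine Prod.ext (D.ι_inj δ hj.1 hj'.1 hl) (funext fun i => ?_)
    rcases lt_or_ge i (D.ι δ j.1) with hi | hi
    · rw [← h.2.2.2 i hi, h'.2.2.2 i (hl ▸ hi)]
    · rw [hj.2 i hi, hj'.2 i (hl ▸ hi)]
  · exact absurd h'.2.1 (h.2.2.1 j'.1 hj'.1 hl)

theorem exists_Pc {δ : Ω} {z : Sp D} (hz : z ∈ D.W δ) :
    (∃ j ∈ Ix D δ, z ∈ Pc D δ j) ∨ z.lev = δ := by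
  classical
  rcases (D.lev_le hz).lt_or_eq with h | h
  · have hex : ∃ n, ∃ α, α < δ ∧ D.ι δ α = n ∧ z ∈ D.W α := ⟨_, z.lev, h, rfl, D.self_mem_W _ _⟩
    obtain ⟨α, h1, h2, h3⟩ := Nat.find_spec hex
    exact Or.inl ⟨(α, fun i => if i < D.ι δ α then z.pt i else false),
      ⟨h1, fun i hi => if_neg (not_lt.2 hi)⟩, hz, h3,
      fun β hβ hl hzβ => Nat.find_min hex (h2 ▸ hl) ⟨β, hβ, rfl, hzβ⟩,
      fun i hi => (if_pos hi).symm⟩
  · exact Or.inr h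

theorem Step.loc_inj {δ : Ω} {x : Lv Ω (Sp D)} (H : Step D f δ x) : InjOn x.loc (D.W δ) := by
  intro z hz z' hz' h
  have h1 := (H.lpos z hz).1
  rw [h, (H.lpos z' hz').1] at h1
  simp only [Prod.mk.injEq] at h1
  exact Sp.ext h1.1.symm (kap_injective h1.2).symm

/-- What holds on the support of the cut-off function. -/
structure Small (D : Dat Ω) (f : Ω → Lv Ω (Sp D)) (δ : Ω) (j : Ω × (ℕ → Bool)) (v : ℝ) :
    Prop where
  strip : |v| < 2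
  rho : (f j.1).ρ v < (1 / 3) ^ D.ι δ j.1
  pc : ∀ z ∈ D.W j.1, (f j.1).loc z = v → z ∈ Pc D δ j
  disj : ∀ β, β < δ → D.ι δ β < D.ι δ j.1 → ∀ e, (f j.1).pos v ≠ (f β).pos e
  sep : ∀ j' ∈ Ix D δ, j'.1 = j.1 → j' ≠ j →
    infEDist v ((f j.1).loc '' Pc D δ j) < infEDist v ((f j.1).loc '' Pc D δ j')

/-- The data of a piece. -/
structure Piece (D : Dat Ω) (f : Ω → Lv Ω (Sp D)) (δ : Ω) (j : Ω × (ℕ → Bool)) (V : Set ℝ)
    (c : ℝ) (θ : ℝ → ℝ) : Prop where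
  opn : IsOpen V
  cpos : 0 < c
  cnew : ∀ γ, γ < δ → ∀ j' ∈ Ix D γ, c ≠ (f γ).c j'
  lt : ∀ v ∈ V, (f j.1).ρ v < c
  clo : ∀ v ∈ closure V, (f j.1).ρ v < c → v ∈ V
  pc : ∀ z ∈ Pc D δ j, (f j.1).loc z ∈ V
  cont : Continuous θ
  mem : ∀ v, θ v ∈ Icc (0 : ℝ) 1
  one : ∀ v ∈ closure V, θ v = 1
  small : ∀ v, θ v ≠ 0 → Small D f δ j v

theorem Good.exists_piece {δ : Ω} {j : Ω × (ℕ → Bool)} (G : Good D f (Iio δ))
    (hj : j ∈ Ix D δ) : ∃ V c θ, Piece D f δ j V c θ := by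
  have A := G.step j.1 hj.1
  have hP := isClopen_Pc (D := D) δ j
  have hKK : ∀ j' : Ω × (ℕ → Bool), j'.1 = j.1 → IsCompact ((f j.1).loc '' Pc D δ j') :=
    fun j' e => ((D.isCompact_W j.1).of_isClosed_subset (isClopen_Pc δ j').isClosed
      fun z hz => e ▸ hz.2.1).image_of_continuousOn (A.lcont.mono fun z hz => e ▸ hz.2.1)
  have hK := hKK j rfl
  have hK' : IsCompact ((f j.1).loc '' (D.W j.1 \ Pc D δ j)) :=
    ((D.isCompact_W j.1).diff hP.isOpen).image_of_continuousOn (A.lcont.mono sdiff_subset)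
  let Q₀ : Set ℝ := {v | |v| < 2} ∩ ({v | (f j.1).ρ v < (1 / 3) ^ D.ι δ j.1} ∩
    (((f j.1).loc '' (D.W j.1 \ Pc D δ j))ᶜ ∩
      ((⋂ β ∈ {β | β < δ ∧ D.ι δ β < D.ι δ j.1},
        (closure {v | ∃ e, (f j.1).pos v = (f β).pos e})ᶜ) ∩
      ⋂ j' ∈ {j' | j' ∈ Ix D δ ∧ j'.1 = j.1 ∧ j' ≠ j},
        {v | infEDist v ((f j.1).loc '' Pc D δ j) < infEDist v ((f j.1).loc '' Pc D δ j')})))
  have hfin : {j' | j' ∈ Ix D δ ∧ j'.1 = j.1 ∧ j' ≠ j}.Finite :=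
    (Ix_finite D δ (D.ι δ j.1 + 1)).subset fun j' h => ⟨h.1, h.2.1 ▸ Nat.lt_succ_self _⟩
  have hQ₀ : IsOpen Q₀ :=
    (isOpen_lt (by fun_prop) continuous_const).inter ((isOpen_lt A.cont continuous_const).inter
      (hK'.isClosed.isOpen_compl.inter (((D.ι_finite δ _).isOpen_biInter fun β _ =>
        isClosed_closure.isOpen_compl).inter (hfin.isOpen_biInter fun j' _ =>
          isOpen_lt continuous_infEDist continuous_infEDist))))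
  have hsm : ∀ v ∈ Q₀, Small D f δ j v := by
    rintro v ⟨h1, h2, h4, h5, h6⟩
    refine ⟨h1, h2, fun z hz e => ?_, fun β hβ hl e he => ?_,
      fun j' a1 a2 a3 => mem_iInter₂.1 h6 j' ⟨a1, a2, a3⟩⟩
    · by_contra hc
      exact h4 ⟨z, ⟨hz, hc⟩, e⟩
    · exact mem_iInter₂.1 h5 β ⟨hβ, hl⟩ (subset_closure ⟨e, he⟩)
  have hKQ : (f j.1).loc '' Pc D δ j ⊆ Q₀ := by
    rintro _ ⟨z, hz, rfl⟩
    have hz' := hz.2.1
    refine ⟨(A.lpos z hz').2.2, ?_, ?_, mem_iInter₂.2 fun β hβ => ?_,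
      mem_iInter₂.2 fun j' hj' => ?_⟩
    · change (f j.1).ρ _ < _
      rw [(A.zero _).2 ⟨z, hz', rfl⟩]
      positivity
    · rintro ⟨z', h1, h2⟩
      exact h1.2 (A.loc_inj h1.1 hz' h2 ▸ hz)
    · exact G.not_closure hj.1 hβ.1 hz' (hz.2.2.1 β hβ.1 hβ.2)
    · change infEDist _ _ < infEDist _ _
      rw [infEDist_zero_of_mem (mem_image_of_mem _ hz), infEDist_pos_iff_notMem_closure,
        (hKK j' hj'.2.1).isClosed.closure_eq]
      rintro ⟨z', h1, h2⟩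
      exact hj'.2.2 (Pc_unique hj'.1 hj h1 (A.loc_inj (hj'.2.1 ▸ h1.2.1) hz' h2 ▸ hz))
  obtain ⟨Q, hQ, hKQ', hQ1, hQ2⟩ := exists_open_between_and_isCompact_closure hK hQ₀ hKQ
  obtain ⟨m, hm, hm'⟩ := (hQ2.diff hQ).exists_forall_le' A.cont.continuousOn (a := 0) (by
    intro v hv
    refine (A.nonneg v).lt_of_ne fun h => hv.2 (hKQ' ?_)
    obtain ⟨z, hz, rfl⟩ := (A.zero v).1 h.symm
    exact ⟨z, (hsm _ (hQ1 hv.1)).pc z hz rfl, rfl⟩)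
  have hcnt : (⋃ γ ∈ Iio δ, (f γ).c '' Ix D γ).Countable :=
    ((D.countable_Iic δ).mono Iio_subset_Iic_self).biUnion fun γ _ => (Ix_countable D γ).image _
  obtain ⟨c, hc1, hc2, hc3⟩ := (hcnt.dense_compl ℝ).exists_between hm
  have hV : closure (Q ∩ {v | (f j.1).ρ v < c}) ⊆ Q := by
    intro v hv
    by_contra hvQ
    have h1 := hm' v ⟨closure_mono inter_subset_left hv, hvQ⟩
    have h2 : (f j.1).ρ v ≤ c := closure_minimal (fun w hw => le_of_lt hw.2)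
      (isClosed_le A.cont continuous_const) hv
    linarith
  obtain ⟨θ, h0, h1, h2⟩ := exists_continuous_zero_one_of_isClosed hQ.isClosed_compl
    (isClosed_closure (s := Q ∩ {v | (f j.1).ρ v < c})) (disjoint_compl_left_iff_subset.2 hV)
  refine ⟨Q ∩ {v | (f j.1).ρ v < c}, c, θ, hQ.inter (isOpen_lt A.cont continuous_const), hc2,
    fun γ hγ γ' hγ' e => hc1 (mem_biUnion hγ ⟨γ', hγ', e.symm⟩), fun v hv => hv.2,
    fun v hv h => ⟨hV hv, h⟩, fun z hz => ⟨hKQ' ⟨z, hz, rfl⟩, ?_⟩, θ.continuous, h2,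
    fun v hv => h1 hv, fun v hv => hsm v (hQ1 (subset_closure (by_contra fun h => hv (h0 h))))⟩
  change (f j.1).ρ _ < c
  rwa [(A.zero _).2 ⟨z, hz.2.1, rfl⟩]

end Pool.Agent.Lib.MP_1f0905_gt.Mf
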