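import Pool.Agent.Lib.MP_1f0905_gt.Mf.Piece

/-!
Construction of the next chart.
-/

open Set Filter Topology Metric

namespace Pool.Agent.Lib.MP_1f0905_gt.Mf

variable {Ω : Type} [LinearOrder Ω] [WellFoundedLT Ω]
variable {D : Dat Ω} {f : Ω → Lv Ω (Sp D)}

/-- Distance from the new level. -/
noncomputable def d0 (e : ℝ) : ℝ := infDist e (range kap)

theorem continuous_d0 : Continuous d0 := continuous_infDist_pt _

theorem d0_nonneg (e : ℝ) : 0 ≤ d0 e := infDist_nonneg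

theorem d0_eq_zero {e : ℝ} : d0 e = 0 ↔ e ∈ range kap :=
  ((isCompact_range continuous_kap).isClosed.mem_iff_infDist_zero (range_nonempty kap)).symm

omit [WellFoundedLT Ω] in
theorem d0_sj_pos {δ : Ω} (j : Ω × (ℕ → Bool)) {v : ℝ} (h : |v| < 2) : 0 < d0 (sj D δ j v) :=
  (d0_nonneg _).lt_of_ne fun e => by
    obtain ⟨x, hx⟩ := d0_eq_zero.1 e.symm
    exact sg_ne_kap _ _ h x hx.symm

omit [WellFoundedLT Ω] in
theorem d0_sj_le {δ : Ω} (j : Ω × (ℕ → Bool)) {v : ℝ} (h : |v| < 2) :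
    d0 (sj D δ j v) ≤ (1 / 3) ^ D.ι δ j.1 :=
  (infDist_le_dist_of_mem (mem_range_self j.2)).trans
    ((inG_sg _ _ h).inK.dist_le (inK_kap _ _))

theorem isCompact_d0 : IsCompact {e | d0 e ≤ 1} := by
  have hC := isCompact_range continuous_kap
  refine (hC.cthickening (r := 1)).of_isClosed_subset
    (isClosed_le continuous_d0 continuous_const) fun e he => ?_
  obtain ⟨y, hy, h2⟩ := hC.exists_infDist_eq_dist (range_nonempty kap) e
  exact mem_cthickening_of_dist_le _ y _ _ hy (h2 ▸ he)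

/-- The function that measures the distance from the zero-dimensional space. -/
theorem Good.exists_rho {δ : Ω} (G : Good D f (Iio δ)) {V : Ω × (ℕ → Bool) → Set ℝ}
    {c : Ω × (ℕ → Bool) → ℝ} {θ : Ω × (ℕ → Bool) → ℝ → ℝ}
    (P : ∀ j ∈ Ix D δ, Piece D f δ j (V j) (c j) (θ j)) :
    ∃ ρ : ℝ → ℝ, Continuous ρ ∧
      (∀ j ∈ Ix D δ, ∀ v : ℝ, |v| < 2 → ρ (sj D δ j v) =
        θ j v * (f j.1).ρ v + (1 - θ j v) * d0 (sj D δ j v)) ∧
      ∀ e, (∀ j ∈ Ix D δ, ∀ v : ℝ, |v| < 2 → sj D δ j v ≠ e) → ρ e = d0 e := by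
  classical
  let g : Ω × (ℕ → Bool) → ℝ → ℝ := fun j e =>
    θ j (sji D δ j e) * ((f j.1).ρ (sji D δ j e) - d0 e)
  have hg0 : ∀ j ∈ Ix D δ, ∀ e, g j e ≠ 0 → Small D f δ j (sji D δ j e) := fun j hj e h =>
    (P j hj).small _ (left_ne_zero_of_mul h)
  have hfin : ∀ n, {j | j ∈ Ix D δ ∧ D.ι δ j.1 = n}.Finite := fun n =>
    (Ix_finite D δ (n + 1)).subset fun j hj => ⟨hj.1, hj.2 ▸ Nat.lt_succ_self _⟩
  let s : ℕ → ℝ → ℝ := fun n e => ∑ j ∈ (hfin n).toFinset, g j e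
  have hne : ∀ j ∈ Ix D δ, ∀ v : ℝ, |v| < 2 → ∀ j' ∈ Ix D δ, j' ≠ j → g j' (sj D δ j v) = 0 := by
    intro j hj v hv j' hj' hne
    by_contra h
    exact hne (sj_idx hj' hj (hg0 j' hj' _ h).strip hv (sj_sji _ _))
  have hs : ∀ j ∈ Ix D δ, ∀ v : ℝ, |v| < 2 → s (D.ι δ j.1) (sj D δ j v) = g j (sj D δ j v) :=
    fun j hj v hv => Finset.sum_eq_single_of_mem j ((hfin _).mem_toFinset.2 ⟨hj, rfl⟩)
      fun j' hj' h => hne j hj v hv j' ((hfin _).mem_toFinset.1 hj').1 h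
  have hc : ∀ n, Continuous (s n) := fun n => continuous_finsetSum _ fun j hj => by
    have hj' := ((hfin _).mem_toFinset.1 hj).1
    exact ((P j hj').cont.comp (continuous_sji _)).mul
      (((G.step j.1 hj'.1).cont.comp (continuous_sji _)).sub continuous_d0)
  have hb : ∀ n e, ‖s n e‖ ≤ (1 / 3) ^ n := by
    intro n e
    by_cases h : s n e = 0
    · rw [h, norm_zero]
      positivity
    · obtain ⟨j, hj0, h0⟩ := Finset.exists_ne_zero_of_sum_ne_zero h
      obtain ⟨hj, rfl⟩ := (hfin _).mem_toFinset.1 hj0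
      have hsm := hg0 j hj e h0
      have h1 := d0_sj_le (D := D) (δ := δ) j hsm.strip
      have h6 := hs j hj _ hsm.strip
      rw [sj_sji] at h1 h6
      have h2 := hsm.rho
      have h3 := (G.step j.1 hj.1).nonneg (sji D δ j e)
      have h4 := d0_nonneg e
      have h5 := (P j hj).mem (sji D δ j e)
      rw [h6, Real.norm_eq_abs, abs_mul, abs_of_nonneg h5.1]
      refine (mul_le_of_le_one_left (abs_nonneg _) h5.2).trans (abs_le.2 ⟨?_, ?_⟩) <;> linarith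
  refine ⟨fun e => d0 e + ∑' n, s n e, continuous_d0.add (continuous_tsum hc
    (summable_geometric_of_lt_one (by norm_num) (by norm_num)) hb), fun j hj v hv => ?_,
    fun e he => ?_⟩
  · simp only
    rw [tsum_eq_single (D.ι δ j.1), hs j hj v hv]
    · simp only [g, sji_sj]
      ring
    · intro m hm
      refine Finset.sum_eq_zero fun j' hj' => ?_
      obtain ⟨h1, h2⟩ := (hfin _).mem_toFinset.1 hj'
      exact hne j hj v hv j' h1 fun e => hm (e ▸ h2.symm)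
  · have : ∀ n, s n e = 0 := fun n => Finset.sum_eq_zero fun j hj => by
      by_contra h
      have hj' := ((hfin _).mem_toFinset.1 hj).1
      exact he j hj' _ (hg0 j hj' e h).strip (sj_sji _ _)
    simp [this]

/-- The position of the points of `W δ` in the new chart. -/
theorem Good.exists_loc {δ : Ω} (G : Good D f (Iio δ)) :
    ∃ loc : Sp D → ℝ, ContinuousOn loc (D.W δ) ∧
      (∀ j ∈ Ix D δ, ∀ z ∈ Pc D δ j, loc z = sj D δ j ((f j.1).loc z)) ∧
      ∀ z : Sp D, z.lev = δ → loc z = kap z.pt := by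
  classical
  let loc : Sp D → ℝ := fun z => if h : ∃ j ∈ Ix D δ, z ∈ Pc D δ j then
    sj D δ h.choose ((f h.choose.1).loc z) else kap z.pt
  have h1 : ∀ j ∈ Ix D δ, ∀ z ∈ Pc D δ j, loc z = sj D δ j ((f j.1).loc z) := by
    intro j hj z hz
    have h : ∃ j ∈ Ix D δ, z ∈ Pc D δ j := ⟨j, hj, hz⟩
    simp only [loc, dif_pos h, Pc_unique h.choose_spec.1 hj h.choose_spec.2 hz]
  have h2 : ∀ z : Sp D, z.lev = δ → loc z = kap z.pt := by
    intro z hz
    refine dif_neg ?_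
    rintro ⟨j, hj, h⟩
    exact absurd (D.lev_le h.2.1) (not_le.2 (hz ▸ hj.1))
  refine ⟨loc, fun z hz => ?_, h1, h2⟩
  rcases exists_Pc hz with ⟨j, hj, hz'⟩ | hz'
  · refine ContinuousAt.continuousWithinAt (ContinuousAt.congr
      (f := fun w => sj D δ j ((f j.1).loc w)) ((continuous_sj _).continuousAt.comp
        ((G.step j.1 hj.1).lcont.continuousAt ((D.isClopen_W j.1).isOpen.mem_nhds hz'.2.1))) ?_)
    filter_upwards [(isClopen_Pc δ j).isOpen.mem_nhds hz'] with w hw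
    exact (h1 j hj w hw).symm
  · rw [ContinuousWithinAt, h2 z hz']
    refine Metric.tendsto_nhds.2 fun ε hε => ?_
    obtain ⟨N, hN⟩ := exists_pow_lt_of_lt_one hε (show (1 / 3 : ℝ) < 1 by norm_num)
    have h3 : ∀ᶠ w in 𝓝 z, ∀ β ∈ {β | β < δ ∧ D.ι δ β < N}, w ∉ D.W β :=
      (eventually_all_finite (D.ι_finite δ N)).2 fun β hβ =>
        (D.isClopen_W β).compl.isOpen.mem_nhds fun h =>
          absurd (D.lev_le h) (not_le.2 (hz' ▸ hβ.1))
    have h4 : ∀ᶠ w in 𝓝 z, ∀ i < N, w.pt i = z.pt i :=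
      ((Dat.isOpen_cyl z.pt N).preimage D.continuous_pt).mem_nhds fun _ _ => rfl
    filter_upwards [self_mem_nhdsWithin, h3.filter_mono nhdsWithin_le_nhds,
      h4.filter_mono nhdsWithin_le_nhds] with w hw hw1 hw2
    refine lt_of_le_of_lt (InK.dist_le ?_ (inK_kap z.pt N)) hN
    rcases exists_Pc hw with ⟨j, hj, hw'⟩ | hw'
    · have a1 := ((G.step j.1 hj.1).lpos w hw'.2.1).2.2
      have a2 : N ≤ D.ι δ j.1 := not_lt.1 fun h => hw1 j.1 ⟨hj.1, h⟩ hw'.2.1
      have a3 := (inG_sg (D.ι δ j.1) j.2 a1).inK.mono a2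
      rw [h1 j hj w hw']
      rwa [InK, lft_congr fun i hi => (hw'.2.2.2 i (hi.trans_le a2)).symm.trans (hw2 i hi)] at a3
    · rw [h2 w hw']
      exact inK_kap_of_agree hw2

theorem Good.exists_step {δ : Ω} (G : Good D f (Iio δ)) : ∃ x, Step D f δ x := by
  classical
  choose! V c θ P using fun j (hj : j ∈ Ix D δ) => G.exists_piece hj
  obtain ⟨ρ, r1, r2, r3⟩ := G.exists_rho P
  obtain ⟨loc, l1, l2, l3⟩ := G.exists_loc
  have hsm : ∀ j ∈ Ix D δ, ∀ v ∈ closure (V j), Small D f δ j v := fun j hj v hv =>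
    (P j hj).small v (by rw [(P j hj).one v hv]; exact one_ne_zero)
  have hstrip : ∀ j ∈ Ix D δ, ∀ v ∈ V j, |v| < 2 := fun j hj v hv =>
    (hsm j hj v (subset_closure hv)).strip
  have hρ : ∀ j ∈ Ix D δ, ∀ v ∈ closure (V j), ρ (sj D δ j v) = (f j.1).ρ v := by
    intro j hj v hv
    rw [r2 j hj v (hsm j hj v hv).strip, (P j hj).one v hv]
    ring
  have dich : ∀ e, (∃ j ∈ Ix D δ, ∃ v : ℝ, |v| < 2 ∧ sj D δ j v = e) ∨ ρ e = d0 e := by
    intro e
    by_cases h : ∃ j ∈ Ix D δ, ∃ v : ℝ, |v| < 2 ∧ sj D δ j v = e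
    · exact Or.inl h
    · exact Or.inr (r3 e fun j hj v hv he => h ⟨j, hj, v, hv, he⟩)
  let pos : ℝ → Ω × ℝ := fun e => if h : ∃ j ∈ Ix D δ, sji D δ j e ∈ V j then
    (f h.choose.1).pos (sji D δ h.choose e) else (δ, e)
  let ht : ℝ → ℝ := fun e => if h : ∃ j ∈ Ix D δ, sji D δ j e ∈ V j then
    (f h.choose.1).ht (sji D δ h.choose e) + (f h.choose.1).ρ (sji D δ h.choose e) /
      (c h.choose - (f h.choose.1).ρ (sji D δ h.choose e)) else 0
  have hold : ∀ j ∈ Ix D δ, ∀ v ∈ V j, pos (sj D δ j v) = (f j.1).pos v ∧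
      ht (sj D δ j v) = (f j.1).ht v + (f j.1).ρ v / (c j - (f j.1).ρ v) := by
    intro j hj v hv
    have h : ∃ j' ∈ Ix D δ, sji D δ j' (sj D δ j v) ∈ V j' := ⟨j, hj, by rwa [sji_sj]⟩
    have e : h.choose = j := sj_idx h.choose_spec.1 hj
      (hstrip _ h.choose_spec.1 _ h.choose_spec.2) (hstrip j hj v hv) (sj_sji _ _)
    simp only [pos, ht, dif_pos h, e, sji_sj, and_self]
  have hnew : ∀ e, (∀ j ∈ Ix D δ, ∀ v ∈ V j, sj D δ j v ≠ e) → pos e = (δ, e) ∧ ht e = 0 := by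
    intro e he
    have h : ¬ ∃ j ∈ Ix D δ, sji D δ j e ∈ V j := fun ⟨j, hj, hv⟩ => he j hj _ hv (sj_sji _ _)
    simp only [pos, ht, dif_neg h, and_self]
  refine ⟨⟨V, c, ρ, pos, ht, loc⟩, fun j hj => (P j hj).opn, hstrip, fun j hj => (P j hj).lt,
    fun j hj => (P j hj).clo, fun j hj => (P j hj).cpos, fun j hj => (P j hj).cnew,
    fun j hj β hβ hl v hv => (hsm j hj v (subset_closure hv)).disj β hβ hl,
    fun j hj j' hj' e v hv hv' => ?_,
    fun j hj v hv => ⟨(hold j hj v hv).1, (hold j hj v hv).2, hρ j hj v (subset_closure hv)⟩,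
    hnew, r1, fun e => ?_, ?_, fun e => ⟨fun he => ?_, ?_⟩, l1, fun z hz => ?_, fun e he => ?_⟩
  · by_contra hne
    have h1 := (hsm j hj v (subset_closure hv)).sep j' hj' e.symm (Ne.symm hne)
    have h2 := (hsm j' hj' v (subset_closure hv')).sep j hj e hne
    rw [← e] at h2
    exact lt_asymm h1 h2
  · change 0 ≤ ρ e
    rcases dich e with ⟨j, hj, v, hv, rfl⟩ | h
    · rw [r2 j hj v hv]
      exact add_nonneg (mul_nonneg ((P j hj).mem v).1 ((G.step j.1 hj.1).nonneg v))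
        (mul_nonneg (sub_nonneg.2 ((P j hj).mem v).2) (d0_nonneg _))
    · rw [h]
      exact d0_nonneg e
  · refine isCompact_d0.of_isClosed_subset (isClosed_le r1 continuous_const) fun e he => ?_
    have he' : ρ e ≤ 1 := he
    change d0 e ≤ 1
    rcases dich e with ⟨j, hj, v, hv, rfl⟩ | h
    · exact (d0_sj_le j hv).trans (pow_le_one₀ (by norm_num) (by norm_num))
    · linarith
  · change ρ e = 0 at he
    rcases dich e with ⟨j, hj, v, hv, rfl⟩ | h
    · rw [r2 j hj v hv] at he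
      have h0 := d0_sj_pos (D := D) (δ := δ) j hv
      have h1 := mul_nonneg ((P j hj).mem v).1 ((G.step j.1 hj.1).nonneg v)
      have h2 := mul_nonneg (sub_nonneg.2 ((P j hj).mem v).2) h0.le
      have h3 : θ j v = 1 := by
        have : (1 - θ j v) * d0 (sj D δ j v) = 0 := by linarith
        have := (mul_eq_zero.1 this).resolve_right h0.ne'
        linarith
      rw [h3] at he
      obtain ⟨z, hz, rfl⟩ := ((G.step j.1 hj.1).zero v).1 (by linarith)
      have h4 := ((P j hj).small _ (by rw [h3]; exact one_ne_zero)).pc z hz rfl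
      exact ⟨z, h4.1, l2 j hj z h4⟩
    · obtain ⟨x, hx⟩ := d0_eq_zero.1 (h ▸ he)
      exact ⟨⟨δ, x⟩, D.self_mem_W δ x, (l3 _ rfl).trans hx⟩
  · rintro ⟨z, hz, rfl⟩
    change ρ (loc z) = 0
    rcases exists_Pc hz with ⟨j, hj, hz'⟩ | hz'
    · rw [l2 j hj z hz', hρ j hj _ (subset_closure ((P j hj).pc z hz'))]
      exact ((G.step j.1 hj.1).zero _).2 ⟨z, hz'.2.1, rfl⟩
    · rw [l3 z hz', r3 _ fun j _ v hv => sg_ne_kap _ _ hv _]
      exact d0_eq_zero.2 (mem_range_self _)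
  · change pos (loc z) = _ ∧ ht (loc z) = 0 ∧ |loc z| < 2
    rcases exists_Pc hz with ⟨j, hj, hz'⟩ | hz'
    · obtain ⟨a1, a2, a4⟩ := (G.step j.1 hj.1).lpos z hz'.2.1
      obtain ⟨b1, b2⟩ := hold j hj _ ((P j hj).pc z hz')
      rw [l2 j hj z hz', b1, b2, a1, a2, ((G.step j.1 hj.1).zero _).2 ⟨z, hz'.2.1, rfl⟩]
      exact ⟨rfl, by simp, (inG_sg _ _ a4).inK.abs_lt⟩
    · obtain ⟨b1, b2⟩ := hnew (kap z.pt) fun j hj v hv => sg_ne_kap _ _ (hstrip j hj v hv) _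
      rw [l3 z hz', b1, b2, hz']
      exact ⟨rfl, rfl, (inK_kap z.pt 0).abs_lt⟩
  · change 0 < ρ e at he
    have hd : 0 < d0 e := by
      rcases dich e with ⟨j, hj, v, hv, rfl⟩ | h
      · exact d0_sj_pos _ hv
      · rwa [← h]
    obtain ⟨N, hN⟩ := exists_pow_lt_of_lt_one hd (show (1 / 3 : ℝ) < 1 by norm_num)
    have h1 : ∀ j ∈ Ix D δ, ∃ s : Set Ω, s.Finite ∧
        ∀ᶠ y in 𝓝 e, sji D δ j y ∈ V j → ((f j.1).pos (sji D δ j y)).1 ∈ s := by
      intro j hj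
      have hc := (continuous_sji (D := D) (δ := δ) j).tendsto e
      by_cases hcl : sji D δ j e ∈ closure (V j)
      · obtain ⟨s, hs, h⟩ := (G.step j.1 hj.1).fin _ (by rwa [← hρ j hj _ hcl, sj_sji])
        exact ⟨s, hs, (hc.eventually h).mono fun y hy _ => hy⟩
      · exact ⟨∅, finite_empty, (hc.eventually (isClosed_closure.isOpen_compl.mem_nhds hcl)).mono
          fun y hy hv => absurd (subset_closure hv) hy⟩
    choose! s hs1 hs2 using h1
    refine ⟨insert δ (⋃ j ∈ {j | j ∈ Ix D δ ∧ D.ι δ j.1 < N}, s j),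
      ((Ix_finite D δ N).biUnion fun j hj => hs1 j hj.1).insert δ, ?_⟩
    have h2 : ∀ᶠ y in 𝓝 e, (1 / 3 : ℝ) ^ N < d0 y :=
      (continuous_d0.tendsto e).eventually (lt_mem_nhds hN)
    filter_upwards [h2, (eventually_all_finite (Ix_finite D δ N)).2 fun j hj => hs2 j hj.1]
      with y a1 a2
    by_cases h : ∃ j ∈ Ix D δ, ∃ v ∈ V j, sj D δ j v = y
    · obtain ⟨j, hj, v, hv, rfl⟩ := h
      have a3 : D.ι δ j.1 < N := by
        by_contra hc
        have b1 := d0_sj_le (D := D) (δ := δ) j (hstrip j hj v hv)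
        have b2 : (1 / 3 : ℝ) ^ D.ι δ j.1 ≤ (1 / 3) ^ N :=
          pow_le_pow_of_le_one (by norm_num) (by norm_num) (not_lt.1 hc)
        linarith
      have a4 := a2 j ⟨hj, a3⟩
      rw [sji_sj] at a4
      rw [(hold j hj v hv).1]
      exact Or.inr (mem_biUnion (show j ∈ {j | j ∈ Ix D δ ∧ D.ι δ j.1 < N} from ⟨hj, a3⟩) (a4 hv))
    · rw [(hnew y fun j hj v hv he => h ⟨j, hj, v, hv, he⟩).1]
      exact Or.inl rfl

theorem exists_good (D : Dat Ω) [Nonempty Ω] : ∃ f, Good D f univ := by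
  have : Nonempty (Lv Ω (Sp D)) :=
    ⟨⟨fun _ => ∅, fun _ => 0, fun _ => 0, fun e => (Classical.arbitrary Ω, e), fun _ => 0,
      fun _ => 0⟩⟩
  obtain ⟨f, hf⟩ := exists_rec (Step D) (fun _ _ _ _ h H => H.congr h) fun f δ h =>
    Good.exists_step ⟨fun _ h1 _ h2 => lt_trans h2 h1, h⟩
  exact ⟨f, fun _ _ _ _ => mem_univ _, fun δ _ => hf δ⟩

end Pool.Agent.Lib.MP_1f0905_gt.Mf
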