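import Pool.Agent.Lib.MP_1f0905_gt.Mf.Step

/-!
The manifold: charts, Hausdorff property, the closed copy of `Sp D × F`.
-/

open Set Filter Topology TopologicalSpace

namespace Pool.Agent.Lib.MP_1f0905_gt.Mf

variable {Ω : Type} [LinearOrder Ω] {D : Dat Ω} {f : Ω → Lv Ω (Sp D)}
variable {F : Type} [NormedAddCommGroup F] [NormedSpace ℝ F] {u : F}

/-- The underlying set. -/
def Mfd (f : Ω → Lv Ω (Sp D)) (_u : F) : Type := {m : (Ω × ℝ) × F // ∃ δ e, (f δ).pos e = m.1}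

/-- The charts. -/
def ch (f : Ω → Lv Ω (Sp D)) (u : F) (δ : Ω) (p : ℝ × F) : Mfd f u :=
  ⟨((f δ).pos p.1, p.2 + (f δ).ht p.1 • u), δ, p.1, rfl⟩

instance (f : Ω → Lv Ω (Sp D)) (u : F) : TopologicalSpace (Mfd f u) :=
  ⨆ δ, coinduced (ch f u δ) inferInstance

theorem isOpen_iff {U : Set (Mfd f u)} : IsOpen U ↔ ∀ δ, IsOpen (ch f u δ ⁻¹' U) :=
  isOpen_iSup_iff

theorem continuous_ch (δ : Ω) : Continuous (ch f u δ) := ⟨fun _ h => isOpen_iff.1 h δ⟩

theorem ch_eq_iff {β δ : Ω} {p q : ℝ × F} : ch f u β p = ch f u δ q ↔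
    (f β).pos p.1 = (f δ).pos q.1 ∧ p.2 + (f β).ht p.1 • u = q.2 + (f δ).ht q.1 • u :=
  Subtype.ext_iff.trans Prod.ext_iff

theorem exists_ch_of_pos {m : Mfd f u} {δ : Ω} {e : ℝ} (h : (f δ).pos e = m.1.1) :
    ch f u δ (e, m.1.2 - (f δ).ht e • u) = m :=
  Subtype.ext (Prod.ext h (sub_add_cancel _ _))

theorem exists_ch (m : Mfd f u) : ∃ δ p, ch f u δ p = m := by
  obtain ⟨δ, e, h⟩ := m.2
  exact ⟨δ, _, exists_ch_of_pos h⟩

theorem shift_eq {a b : F} {s t : ℝ} : a + s • u = b + t • u ↔ b - a = (s - t) • u := by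
  rw [sub_smul, sub_eq_sub_iff_add_eq_add, add_comm (s • u), eq_comm]

variable [WellFoundedLT Ω]

theorem Good.isOpenEmbedding (G : Good D f univ) (u : F) (δ : Ω) :
    IsOpenEmbedding (ch f u δ) := by
  refine IsOpenEmbedding.of_continuous_injective_isOpenMap (continuous_ch δ) ?_ ?_
  · intro p q h
    obtain ⟨h1, h2⟩ := ch_eq_iff.1 h
    have h3 := G.pos_inj δ (mem_univ _) h1
    rw [h3] at h2
    exact Prod.ext h3 (add_right_cancel h2)
  · intro O hO
    refine isOpen_iff.2 fun β => isOpen_iff_mem_nhds.2 ?_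
    rintro p ⟨q, hq, h⟩
    obtain ⟨h1, h2⟩ := ch_eq_iff.1 h.symm
    obtain ⟨τ, t1, t2, t3, t4⟩ := G.trans β δ (mem_univ _) (mem_univ _) _ _ h1
    have hΘ : ContinuousAt
        (fun r : ℝ × F => (τ r.1, r.2 + ((f β).ht r.1 - (f δ).ht (τ r.1)) • u)) p :=
      (t1.comp continuousAt_fst).prodMk (continuousAt_snd.add
        ((ContinuousAt.comp (f := Prod.fst) t4 continuousAt_fst).smul continuousAt_const))
    have e : (τ p.1, p.2 + ((f β).ht p.1 - (f δ).ht (τ p.1)) • u) = q :=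
      Prod.ext t2 (by simp only [t2, ← shift_eq.1 h2, add_sub_cancel])
    rw [← e] at hq
    filter_upwards [hΘ.eventually (hO.mem_nhds hq),
      (continuousAt_fst (p := p)).eventually t3] with r a1 a2
    exact ⟨_, a1, ch_eq_iff.2 ⟨a2.symm, by simp only [add_assoc, ← add_smul, sub_add_cancel]⟩⟩

theorem exists_inv {X Y : Type} [TopologicalSpace X] [TopologicalSpace Y] {φ : X → Y}
    (h : IsOpenEmbedding φ) (p : X) :
    ∃ ψ : Y → X, Tendsto ψ (𝓝 (φ p)) (𝓝 p) ∧ ∀ᶠ y in 𝓝 (φ p), φ (ψ y) = y := by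
  have : Nonempty X := ⟨p⟩
  refine ⟨Function.invFun φ, ?_, ?_⟩
  · rw [← h.map_nhds_eq, tendsto_map'_iff, Function.invFun_comp h.injective]
    exact tendsto_id
  · filter_upwards [h.isOpen_range.mem_nhds (mem_range_self p)] with y hy
    exact Function.invFun_eq hy

theorem Good.t2 (G : Good D f univ) (hu : ‖u‖ = 1) : T2Space (Mfd f u) := by
  refine t2_iff_ultrafilter.2 fun {x y} 𝒰 hx hy => ?_
  obtain ⟨β, p, rfl⟩ := exists_ch x
  obtain ⟨δ, q, rfl⟩ := exists_ch y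
  obtain ⟨a, a1, a2⟩ := exists_inv (G.isOpenEmbedding u β) p
  obtain ⟨b, b1, b2⟩ := exists_inv (G.isOpenEmbedding u δ) q
  have ha := a1.mono_left hx
  have hb := b1.mono_left hy
  have hab : ∀ᶠ i in 𝒰, ch f u β (a i) = ch f u δ (b i) := by
    filter_upwards [a2.filter_mono hx, b2.filter_mono hy] with i h1 h2
    rw [h1, h2]
  have h1 : ∀ᶠ i in 𝒰, (f β).pos (a i).1 = (f δ).pos (b i).1 :=
    hab.mono fun i h => (ch_eq_iff.1 h).1
  have h2 : Tendsto (fun i => ((f β).ht (a i).1 - (f δ).ht (b i).1) • u) 𝒰 (𝓝 (q.2 - p.2)) :=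
    (hb.snd_nhds.sub ha.snd_nhds).congr' (hab.mono fun i h => shift_eq.1 (ch_eq_iff.1 h).2)
  rcases G.sep β δ (mem_univ _) (mem_univ _) _ 𝒰 _ _ _ _ ha.fst_nhds hb.fst_nhds h1 with h | h
  · exact ch_eq_iff.2 ⟨h, shift_eq.2 (tendsto_nhds_unique h2
      ((G.ht_tendsto (mem_univ _) (mem_univ _) ha.fst_nhds h1 h).smul_const u))⟩
  · refine absurd ?_ (not_tendsto_nhds_of_tendsto_atTop h.2 ‖q.2 - p.2‖)
    simpa only [norm_smul, hu, mul_one, Real.norm_eq_abs] using h2.norm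

/-- The copy of `Sp D × F`. -/
def emb (f : Ω → Lv Ω (Sp D)) (u : F) (w : Sp D × F) : Mfd f u :=
  ch f u w.1.lev ((f w.1.lev).loc w.1, w.2)

theorem Good.emb_val (G : Good D f univ) (w : Sp D × F) :
    (emb f u w).1 = ((w.1.lev, kap w.1.pt), w.2) := by
  obtain ⟨h1, h2, -⟩ := (G.step w.1.lev (mem_univ _)).lpos w.1 (D.self_mem_W _ _)
  simp only [emb, ch, h1, h2, zero_smul, add_zero]

theorem Good.emb_eq (G : Good D f univ) {δ : Ω} {w : Sp D × F} (h : w.1 ∈ D.W δ) :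
    emb f u w = ch f u δ ((f δ).loc w.1, w.2) := by
  obtain ⟨h1, h2, -⟩ := (G.step δ (mem_univ _)).lpos w.1 h
  refine Subtype.ext ?_
  rw [G.emb_val]
  simp only [ch, h1, h2, zero_smul, add_zero]

/-- The distance from the copy of `Sp D × F`. -/
def rho (f : Ω → Lv Ω (Sp D)) {u : F} (m : Mfd f u) : ℝ := (f m.1.1.1).ρ m.1.1.2

theorem Good.rho_ch (G : Good D f univ) (δ : Ω) (p : ℝ × F) :
    rho f (ch f u δ p) = (f δ).ρ p.1 :=
  (G.rho_pos δ (mem_univ _) p.1).symm

theorem Good.continuous_rho (G : Good D f univ) : Continuous (rho f (u := u)) :=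
  ⟨fun U hU => isOpen_iff.2 fun δ => by
    rw [← preimage_comp, show rho f ∘ ch f u δ = fun p => (f δ).ρ p.1 from funext (G.rho_ch δ)]
    exact hU.preimage ((G.step δ (mem_univ _)).cont.comp continuous_fst)⟩

theorem Good.rho_emb (G : Good D f univ) (w : Sp D × F) : rho f (emb f u w) = 0 := by
  rw [emb, G.rho_ch]
  exact ((G.step _ (mem_univ _)).zero _).2 ⟨w.1, D.self_mem_W _ _, rfl⟩

theorem Good.isClosedEmbedding (G : Good D f univ) (u : F) : IsClosedEmbedding (emb f u) := by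
  have hinj : Function.Injective (emb f u) := by
    intro w w' h
    have := congrArg Subtype.val h
    rw [G.emb_val, G.emb_val] at this
    simp only [Prod.mk.injEq] at this
    exact Prod.ext (Sp.ext this.1.1 (kap_injective this.1.2)) this.2
  refine IsClosedEmbedding.of_continuous_injective_isClosedMap ?_ hinj ?_
  · refine continuous_iff_continuousAt.2 fun w => ?_
    have hW := (D.isClopen_W w.1.lev).isOpen.mem_nhds (D.self_mem_W w.1.lev w.1.pt)
    have h1 : ContinuousAt (fun v : Sp D × F => ((f w.1.lev).loc v.1, v.2)) w :=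
      (ContinuousAt.comp (f := Prod.fst) ((G.step _ (mem_univ _)).lcont.continuousAt hW)
        continuousAt_fst).prodMk continuousAt_snd
    refine ((continuous_ch (f := f) (u := u) w.1.lev).continuousAt.comp h1).congr ?_
    filter_upwards [(continuousAt_fst (p := w)).eventually hW] with v hv
    exact (G.emb_eq hv).symm
  · intro A hA
    rw [← isOpen_compl_iff, isOpen_iff]
    intro δ
    have H := G.step δ (mem_univ _)
    have : CompactSpace (D.W δ) := isCompact_iff_compactSpace.1 (D.isCompact_W δ)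
    have h1 : IsProperMap ((D.W δ).domRestrict (f δ).loc) :=
      (continuousOn_iff_continuous_domRestrict.1 H.lcont).isProperMap
    have h2 := (h1.prodMap (isProperMap_id (X := F))).isClosedMap
      ((Prod.map Subtype.val id) ⁻¹' A) (hA.preimage (by fun_prop))
    rw [preimage_compl, isOpen_compl_iff]
    refine Eq.mp (congrArg IsClosed ?_) h2
    ext p
    constructor
    · rintro ⟨v, hv, rfl⟩
      exact ⟨_, hv, G.emb_eq v.1.2⟩
    · rintro ⟨w, hw, h⟩
      obtain ⟨z, hz, e⟩ := (H.zero p.1).1 (by rw [← G.rho_ch (u := u), ← h, G.rho_emb])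
      have h3 : emb f u (z, p.2) = emb f u w := by
        rw [G.emb_eq hz, h]
        simp only [e]
      obtain rfl := hinj h3
      exact ⟨(⟨z, hz⟩, p.2), hw, Prod.ext e rfl⟩

theorem Good.exists_emb (G : Good D f univ) {m : Mfd f u} (h : rho f m = 0) :
    ∃ w, emb f u w = m := by
  obtain ⟨δ, p, rfl⟩ := exists_ch m
  rw [G.rho_ch] at h
  obtain ⟨z, hz, e⟩ := ((G.step δ (mem_univ _)).zero _).1 h
  exact ⟨(z, p.2), by rw [G.emb_eq hz]; simp only [e]⟩

theorem exists_mem_W (D : Dat Ω) (α δ : Ω) : ∃ z, z ∈ D.W α ∧ z ∈ D.W δ := by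
  classical
  have key : ∀ α δ : Ω, α < δ → ∃ z, z ∈ D.W α ∧ z ∈ D.W δ := by
    intro α δ h
    refine ⟨⟨α, fun i => decide (i = D.k δ α)⟩, D.self_mem_W _ _, D.mem_W.2 (Or.inr ⟨α, h,
      D.self_mem_W _ _, D.k_spec δ α _ fun i hi => ?_, by simp, fun i hi h1 => ?_⟩)⟩
    · simpa using (by omega : i ≠ D.k δ α)
    · exact absurd (of_decide_eq_true h1) hi.ne
  rcases lt_trichotomy α δ with h | rfl | h
  · exact key α δ h
  · exact ⟨⟨α, fun _ => false⟩, D.self_mem_W _ _, D.self_mem_W _ _⟩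
  · exact (key δ α h).imp fun _ => And.symm

theorem Good.connected (G : Good D f univ) [Nonempty Ω] : ConnectedSpace (Mfd f u) := by
  obtain ⟨o⟩ := ‹Nonempty Ω›
  have : Nonempty (Mfd f u) := ⟨ch f u o 0⟩
  have : PreconnectedSpace (Mfd f u) := ⟨isPreconnected_of_forall (ch f u o 0) fun y _ => by
    obtain ⟨δ, p, rfl⟩ := exists_ch y
    obtain ⟨z, h1, h2⟩ := exists_mem_W D o δ
    exact ⟨range (ch f u o) ∪ range (ch f u δ), subset_univ _, Or.inl (mem_range_self _),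
      Or.inr (mem_range_self _), IsPreconnected.union (emb f u (z, 0))
        ⟨_, (G.emb_eq (w := (z, 0)) h1).symm⟩ ⟨_, (G.emb_eq (w := (z, 0)) h2).symm⟩
        (isPreconnected_range (continuous_ch o)) (isPreconnected_range (continuous_ch δ))⟩⟩
  exact ⟨inferInstance⟩

theorem Good.weightLE [SecondCountableTopology F] (G : Good D f univ)
    (hΩ : Cardinal.mk Ω ≤ Cardinal.aleph 1) : WeightLE (Mfd f u) (Cardinal.aleph 1) := by
  let B : Ω × countableBasis (ℝ × F) → Set (Mfd f u) := fun p => ch f u p.1 '' p.2.1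
  refine ⟨range B, isTopologicalBasis_of_isOpen_of_nhds ?_ ?_, Cardinal.mk_range_le.trans ?_⟩
  · rintro _ ⟨p, rfl⟩
    exact (G.isOpenEmbedding u p.1).isOpenMap _ (isOpen_of_mem_countableBasis p.2.2)
  · intro m U hm hU
    obtain ⟨δ, p, rfl⟩ := exists_ch m
    obtain ⟨b, hb, h1, h2⟩ := (isBasis_countableBasis (ℝ × F)).exists_subset_of_mem_open
      (show p ∈ ch f u δ ⁻¹' U from hm) (hU.preimage (continuous_ch δ))
    exact ⟨_, ⟨(δ, ⟨b, hb⟩), rfl⟩, mem_image_of_mem _ h1, image_subset_iff.2 h2⟩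
  · have h0 : Cardinal.aleph0 ≤ Cardinal.aleph 1 := Cardinal.aleph0_le_aleph 1
    rw [Cardinal.mk_prod, Cardinal.lift_id, Cardinal.lift_id]
    exact Cardinal.mul_le_of_le h0 hΩ (Cardinal.mk_le_aleph0.trans h0)

theorem Good.charted {H : Type} [TopologicalSpace H] (G : Good D f univ) (L : H ≃ₜ ℝ × F) :
    Nonempty (ChartedSpace H (Mfd f u)) := by
  have : Nonempty H := ⟨L.symm 0⟩
  have h : ∀ δ, IsOpenEmbedding (ch f u δ ∘ L) := fun δ =>
    (G.isOpenEmbedding u δ).comp L.isOpenEmbedding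
  choose l p hp using fun m : Mfd f u => exists_ch m
  refine ⟨⟨range fun δ => ((h δ).toOpenPartialHomeomorph _).symm,
    fun m => ((h (l m)).toOpenPartialHomeomorph _).symm, fun m => ?_, fun m => ⟨l m, rfl⟩⟩⟩
  rw [OpenPartialHomeomorph.symm_source, IsOpenEmbedding.toOpenPartialHomeomorph_target]
  exact ⟨L.symm (p m), by simp [hp]⟩

end Pool.Agent.Lib.MP_1f0905_gt.Mf
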